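import Pool.Agent.H95R2.Leh.Omega

/-!
# Lehmer numbers and their largest prime factor
-/

set_option autoImplicit false

namespace Pool.Agent.TH43.LK

open Finset Pool.Agent.H95R2.Leh

/-- the cofactor of a prime factor of a Lehmer number -/
theorem leh_pair {n : ℕ} (h : Leh n) {p : ℕ} (hp : p.Prime) (hpn : p ∣ n) :
    ∃ s : ℕ, 1 ≤ s ∧ n = p * (s * (p - 1) + 1) ∧ p ≤ s * (p - 1) + 1 ∧
      ∀ f : ℕ, f ∣ n / p → f ∣ s * (p - 1) + 1 ∧ f.totient ∣ s * p + 1 := by
  obtain ⟨hsq, hodd, hco⟩ := leh_basic h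
  obtain ⟨k, hk2, hk, -⟩ := leh_k h
  obtain ⟨m, rfl⟩ := hpn
  have hp2 := hp.two_le
  have hm0 : 0 < m := Nat.pos_of_ne_zero (fun h0 => by
    rw [h0, mul_zero] at hsq
    exact not_squarefree_zero hsq)
  have hcop : Nat.Coprime p m := Nat.coprime_of_squarefree_mul hsq
  have hphi : Nat.totient (p * m) = (p - 1) * Nat.totient m := by
    rw [Nat.totient_mul hcop, Nat.totient_prime hp]
  have hm1 : m ≠ 1 := by
    rintro rfl
    rw [mul_one] at h
    exact h.2.1 hp
  obtain ⟨r, hr⟩ : ∃ r, p = r + 2 := ⟨p - 2, by omega⟩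
  have hp1 : p - 1 = r + 1 := by omega
  -- k φ(m) (p - 1) = p m - 1
  have hkey : (k * Nat.totient m) * (p - 1) + 1 = p * m := by
    rw [hphi] at hk
    have hpos : 1 ≤ p * m := Nat.one_le_iff_ne_zero.2 (by positivity)
    have : p * m - 1 = (k * Nat.totient m) * (p - 1) := by rw [hk]; ring
    omega
  set a := k * Nat.totient m with ha
  have ham : m ≤ a := by
    by_contra hlt
    push Not at hlt
    have h1 : (a + 1) * (p - 1) ≤ m * (p - 1) := Nat.mul_le_mul_right _ hlt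
    rw [hp1] at h1 hkey
    rw [hr] at hkey
    nlinarith
  obtain ⟨s, hs⟩ : ∃ s, a = m + s := ⟨a - m, by omega⟩
  have hms : m = s * (p - 1) + 1 := by
    rw [hs] at hkey
    rw [hp1] at hkey ⊢
    rw [hr] at hkey
    nlinarith
  have hs1 : 1 ≤ s := by
    rcases Nat.eq_zero_or_pos s with h0 | h0
    · rw [h0, zero_mul, zero_add] at hms
      exact absurd hms hm1
    · exact h0
  refine ⟨s, hs1, by rw [← hms], ?_, ?_⟩
  · have : 1 * (p - 1) ≤ s * (p - 1) := Nat.mul_le_mul_right _ hs1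
    omega
  · intro f hf
    rw [Nat.mul_div_cancel_left m hp.pos] at hf
    refine ⟨by rw [← hms]; exact hf, ?_⟩
    have h1 : f.totient ∣ m.totient := Nat.totient_dvd_of_dvd hf
    have h2 : s * p + 1 = a := by
      rw [hs, hp1] at *
      rw [hr]
      nlinarith
    rw [h2, ha]
    exact Dvd.dvd.mul_left h1 k

/-- dense divisors of the cofactor of the largest prime factor -/
theorem leh_dense {n : ℕ} (h : Leh n) {p : ℕ} (hp : p.Prime) (hpn : p ∣ n)
    (hmax : ∀ r : ℕ, r.Prime → r ∣ n → r ≤ p) {R : ℝ} (hR1 : 1 ≤ R)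
    (hR : (n.primeFactors.card : ℝ) ≤ R) {z : ℝ} (hz : 1 ≤ z) (hzn : z ≤ ((n / p : ℕ) : ℝ)) :
    ∃ f : ℕ, f ∣ n / p ∧ z / (16 * R) < (f : ℝ) ∧ (f : ℝ) ≤ z := by
  obtain ⟨hsq, hodd, hco⟩ := leh_basic h
  obtain ⟨k, hk2, hk, -⟩ := leh_k h
  have hn1 := h.1
  have hF := fam_leh n k R (by omega) hR1
  have hst : StL n k R (seg n p) p :=
    ⟨n, h, by omega, le_rfl, hk, hR, Or.inl ⟨hp, hpn, rfl⟩⟩
  have hpm : p ∈ n.primeFactors := Nat.mem_primeFactors.2 ⟨hp, hpn, by omega⟩
  have hup : upp n p = p := by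
    unfold upp
    have : n.primeFactors.filter (fun x => p ≤ x) = {p} := by
      ext x
      simp only [Finset.mem_filter, Finset.mem_singleton]
      constructor
      · rintro ⟨h1, h2⟩
        exact le_antisymm (hmax x (Nat.prime_of_mem_primeFactors h1)
          (Nat.dvd_of_mem_primeFactors h1)) h2
      · rintro rfl
        exact ⟨hpm, le_refl _⟩
    rw [this, Finset.prod_singleton]
  have hseg : seg n p = n / p := by
    have h1 := seg_mul_upp' (n := n) (s := p) hsq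
    rw [hup] at h1
    exact (Nat.div_eq_of_eq_mul_left hp.pos h1.symm).symm
  rw [hseg] at hst
  exact dense hF hst hz hzn

end Pool.Agent.TH43.LK
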