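import Pool.Agent.TH43.LK.Box
import Pool.Agent.TH43.LK.LehArith

/-!
# Lehmer numbers whose largest prime factor lies in a dyadic block
-/

set_option autoImplicit false

namespace Pool.Agent.TH43.LK

open Finset Pool.Agent.H95R2.Leh

open Classical in
/-- Lehmer numbers up to `x` whose largest prime factor is in `(Y, 2 Y]` -/
noncomputable def BB (x Y : ℕ) : Finset ℕ :=
  (Icc 1 x).filter (fun n => Leh n ∧ ∃ p : ℕ, p.Prime ∧ p ∣ n ∧
    (∀ r : ℕ, r.Prime → r ∣ n → r ≤ p) ∧ Y < p ∧ p ≤ 2 * Y)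

open Classical in
/-- the divisors used -/
noncomputable def EE (F R : ℝ) : Finset ℕ :=
  (Icc 1 ⌊F⌋₊).filter (fun f => F / (16 * R) < (f : ℝ) ∧ Nat.Coprime f f.totient)

/-- the points of the box -/
noncomputable def PP (q : ℕ) (c : ZMod q) (Y S : ℕ) : Finset (ℕ × ℕ) :=
  (range S ×ˢ range Y).filter (fun ij : ℕ × ℕ =>
    ((((1 : ℤ) + ij.1 : ℤ)) : ZMod q) * (c - ((((Y + 1 : ℤ) + ij.2 : ℤ)) : ZMod q)) = 1)

theorem exists_c (f : ℕ) : ∃ c : ZMod (f * f.totient), Nat.Coprime f f.totient →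
    ∀ s p : ℕ, 1 ≤ p → f ∣ s * (p - 1) + 1 → f.totient ∣ s * p + 1 →
      (((s : ℤ)) : ZMod (f * f.totient)) * (c - (((p : ℤ)) : ZMod (f * f.totient))) = 1 := by
  by_cases hco : Nat.Coprime f f.totient
  · obtain ⟨u, v, huv⟩ := Nat.isCoprime_iff_coprime.mpr hco
    -- `u * f + v * φ f = 1`, `c = v * φ f`
    refine ⟨((v * f.totient : ℤ) : ZMod (f * f.totient)), fun _ s p hp h1 h2 => ?_⟩
    have h3 : ((f * f.totient : ℕ) : ℤ) ∣ (s : ℤ) * (v * f.totient - p) - 1 := by
      push_cast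
      apply (Nat.isCoprime_iff_coprime.mpr hco).mul_dvd
      · have e1 : (s : ℤ) * (v * f.totient - p) - 1 =
            -(s * (p - 1) + 1) - s * u * f := by
          have : v * (f.totient : ℤ) = 1 - u * f := by linarith
          rw [this]; ring
        rw [e1]
        apply dvd_sub
        · rw [dvd_neg]
          have h4 : ((f : ℕ) : ℤ) ∣ ((s * (p - 1) + 1 : ℕ) : ℤ) := by exact_mod_cast h1
          push_cast [Nat.cast_sub hp] at h4
          exact h4
        · exact Dvd.intro_left _ rfl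
      · have e1 : (s : ℤ) * (v * f.totient - p) - 1 = -(s * p + 1) + s * v * f.totient := by ring
        rw [e1]
        apply dvd_add
        · rw [dvd_neg]
          exact_mod_cast h2
        · exact Dvd.intro_left _ rfl
    have h4 := (ZMod.intCast_zmod_eq_zero_iff_dvd _ _).2 h3
    push_cast at h4 ⊢
    exact sub_eq_zero.1 h4
  · exact ⟨0, fun h => absurd h hco⟩

theorem block_sum (x Y : ℕ) (hY : 1 ≤ Y) (R : ℝ) (hR1 : 1 ≤ R)
    (hR : ∀ n : ℕ, n ≤ x → Leh n → (n.primeFactors.card : ℝ) ≤ R) (F : ℝ) (hF1 : 1 ≤ F)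
    (hFY : F ≤ Y) (Bd : ℝ) (hBd0 : 0 ≤ Bd)
    (hBd : ∀ f : ℕ, 1 ≤ f → F / (16 * R) < (f : ℝ) → (f : ℝ) ≤ F → ∀ c : ZMod (f * f.totient),
      (NN (f * f.totient) c 1 (Y + 1) (x / Y ^ 2) Y : ℝ) ≤ Bd) :
    ((BB x Y).card : ℝ) ≤ F * Bd := by
  classical
  choose cf hcf using exists_c
  have hsub : BB x Y ⊆ (EE F R).biUnion (fun f => (PP (f * f.totient) (cf f) Y (x / Y ^ 2)).image
      (fun ij => (Y + 1 + ij.2) * ((1 + ij.1) * (Y + ij.2) + 1))) := by
    intro n hn
    unfold BB at hn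
    rw [mem_filter, mem_Icc] at hn
    obtain ⟨⟨hn1, hnx⟩, hL, p, hp, hpn, hmax, hYp, hp2⟩ := hn
    obtain ⟨s, hs1, hns, hps, hdiv⟩ := leh_pair hL hp hpn
    have hnp : n / p = s * (p - 1) + 1 := by
      rw [hns]
      exact Nat.mul_div_cancel_left _ hp.pos
    have hFn : F ≤ ((n / p : ℕ) : ℝ) := by
      have h1 : (Y : ℝ) ≤ ((n / p : ℕ) : ℝ) := by
        rw [hnp]
        exact_mod_cast (by omega : Y ≤ s * (p - 1) + 1)
      linarith
    obtain ⟨f, hf1, hf2, hf3⟩ := leh_dense hL hp hpn hmax hR1 (hR n hnx hL) hF1 hFn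
    obtain ⟨d1, d2⟩ := hdiv f hf1
    have hn0 : n ≠ 0 := by omega
    have hfn : f ∣ n := hf1.trans (Nat.div_dvd_of_dvd hpn)
    have hf0 : 0 < f := Nat.pos_of_dvd_of_pos hfn (by omega)
    have hco : Nat.Coprime f f.totient := by
      obtain ⟨-, -, hco⟩ := leh_basic hL
      exact (hco.coprime_dvd_left hfn).coprime_dvd_right (Nat.totient_dvd_of_dvd hfn)
    rw [mem_biUnion]
    refine ⟨f, ?_, ?_⟩
    · unfold EE
      rw [mem_filter, mem_Icc]
      exact ⟨⟨hf0, Nat.le_floor hf3⟩, hf2, hco⟩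
    · rw [mem_image]
      have hsS : s ≤ x / Y ^ 2 := by
        rw [Nat.le_div_iff_mul_le (by positivity)]
        have h1 : s * Y ≤ s * (p - 1) + 1 := by
          have : s * Y ≤ s * (p - 1) := Nat.mul_le_mul_left _ (by omega)
          omega
        calc s * Y ^ 2 = Y * (s * Y) := by ring
          _ ≤ p * (s * (p - 1) + 1) := Nat.mul_le_mul hYp.le h1
          _ = n := hns.symm
          _ ≤ x := hnx
      refine ⟨(s - 1, p - Y - 1), ?_, ?_⟩
      · unfold PP
        rw [mem_filter, mem_product, mem_range, mem_range]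
        refine ⟨⟨by simp only; omega, by simp only; omega⟩, ?_⟩
        have h1 := hcf f hco s p hp.one_lt.le d1 d2
        have e1 : ((1 : ℤ) + ((s - 1 : ℕ) : ℤ)) = (s : ℤ) := by
          push_cast [Nat.cast_sub hs1]
          ring
        have e2 : (((Y : ℤ) + 1) + ((p - Y - 1 : ℕ) : ℤ)) = (p : ℤ) := by
          omega
        simp only
        rw [e1, e2]
        exact h1
      · simp only
        have e1 : Y + 1 + (p - Y - 1) = p := by omega
        have e2 : 1 + (s - 1) = s := by omega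
        have e3 : Y + (p - Y - 1) = p - 1 := by omega
        rw [e1, e2, e3]
        exact hns.symm
  have h1 : ((BB x Y).card : ℝ) ≤ ∑ f ∈ EE F R,
      (((PP (f * f.totient) (cf f) Y (x / Y ^ 2)).image
      (fun ij : ℕ × ℕ => (Y + 1 + ij.2) * ((1 + ij.1) * (Y + ij.2) + 1))).card : ℝ) := by
    exact_mod_cast (card_le_card hsub).trans card_biUnion_le
  refine h1.trans ?_
  have h2 : ∀ f ∈ EE F R, (((PP (f * f.totient) (cf f) Y (x / Y ^ 2)).image
      (fun ij : ℕ × ℕ => (Y + 1 + ij.2) * ((1 + ij.1) * (Y + ij.2) + 1))).card : ℝ) ≤ Bd := by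
    intro f hf
    unfold EE at hf
    rw [mem_filter, mem_Icc] at hf
    obtain ⟨⟨hf1, hf2⟩, hf3, hco⟩ := hf
    refine le_trans ?_ (hBd f hf1 hf3 ((Nat.cast_le.2 hf2).trans (Nat.floor_le (by linarith)))
      (cf f))
    exact_mod_cast card_image_le
  refine (sum_le_sum h2).trans ?_
  rw [sum_const, nsmul_eq_mul]
  apply mul_le_mul_of_nonneg_right _ hBd0
  have h3 : (EE F R).card ≤ ⌊F⌋₊ := by
    unfold EE
    refine (card_filter_le _ _).trans ?_
    simp
  exact (Nat.cast_le.2 h3).trans (Nat.floor_le (by linarith))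

end Pool.Agent.TH43.LK
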