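import Pool.Agent.TH43.LK.Count

/-!
# Points of a modular hyperbola in a box: trivial bound and final form
-/

set_option autoImplicit false

namespace Pool.Agent.TH43.LK

open Finset Pool.Agent.H95R2.Leh

theorem congr_of_mul (q : ℕ) (v : ZMod q) (s₀ : ℤ) (i i' : ℕ)
    (h : (((s₀ + i : ℤ)) : ZMod q) * v = 1) (h' : (((s₀ + i' : ℤ)) : ZMod q) * v = 1) :
    i ≡ i' [MOD q] := by
  have h1 : (((s₀ + i : ℤ)) : ZMod q) = (((s₀ + i' : ℤ)) : ZMod q) := by
    calc (((s₀ + i : ℤ)) : ZMod q) = (((s₀ + i : ℤ)) : ZMod q) * ((((s₀ + i' : ℤ)) : ZMod q) * v) := by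
          rw [h', mul_one]
      _ = ((((s₀ + i : ℤ)) : ZMod q) * v) * (((s₀ + i' : ℤ)) : ZMod q) := by ring
      _ = _ := by rw [h, one_mul]
  push_cast at h1
  have h2 : (i : ZMod q) = (i' : ZMod q) := add_left_cancel h1
  exact (ZMod.natCast_eq_natCast_iff i i' q).1 h2

theorem congr_of_mul' (q : ℕ) (u c : ZMod q) (t₀ : ℤ) (i i' : ℕ)
    (h : u * (c - (((t₀ + i : ℤ)) : ZMod q)) = 1) (h' : u * (c - (((t₀ + i' : ℤ)) : ZMod q)) = 1) :
    i ≡ i' [MOD q] := by
  have h1 : c - (((t₀ + i : ℤ)) : ZMod q) = c - (((t₀ + i' : ℤ)) : ZMod q) := by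
    calc c - (((t₀ + i : ℤ)) : ZMod q) =
          (c - (((t₀ + i : ℤ)) : ZMod q)) * (u * (c - (((t₀ + i' : ℤ)) : ZMod q))) := by
          rw [h', mul_one]
      _ = (u * (c - (((t₀ + i : ℤ)) : ZMod q))) * (c - (((t₀ + i' : ℤ)) : ZMod q)) := by ring
      _ = _ := by rw [h, one_mul]
  have h3 : (((t₀ + i : ℤ)) : ZMod q) = (((t₀ + i' : ℤ)) : ZMod q) := sub_right_injective h1
  push_cast at h3
  have h2 : (i : ZMod q) = (i' : ZMod q) := add_left_cancel h3
  exact (ZMod.natCast_eq_natCast_iff i i' q).1 h2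

theorem NN_triv_left (q : ℕ) (hq : 0 < q) (c : ZMod q) (s₀ t₀ : ℤ) (S T : ℕ) :
    NN q c s₀ t₀ S T ≤ T * (S / q + 1) := by
  classical
  unfold NN
  rw [Finset.card_filter, Finset.sum_product, Finset.sum_comm]
  have h1 : ∀ j ∈ range T, (∑ i ∈ range S, if (((s₀ + ((i, j) : ℕ × ℕ).1 : ℤ)) : ZMod q) *
      (c - (((t₀ + ((i, j) : ℕ × ℕ).2 : ℤ)) : ZMod q)) = 1 then 1 else 0) ≤ S / q + 1 := by
    intro j _
    rw [← Finset.card_filter]
    apply Omega.card_congr_le q S hq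
    · intro n hn
      rw [mem_filter, mem_range] at hn
      exact hn.1.le
    · intro n hn n' hn'
      rw [mem_filter] at hn hn'
      exact congr_of_mul q _ s₀ n n' hn.2 hn'.2
  refine (Finset.sum_le_sum h1).trans ?_
  rw [Finset.sum_const, card_range, smul_eq_mul]

theorem NN_triv_right (q : ℕ) (hq : 0 < q) (c : ZMod q) (s₀ t₀ : ℤ) (S T : ℕ) :
    NN q c s₀ t₀ S T ≤ S * (T / q + 1) := by
  classical
  unfold NN
  rw [Finset.card_filter, Finset.sum_product]
  have h1 : ∀ i ∈ range S, (∑ j ∈ range T, if (((s₀ + ((i, j) : ℕ × ℕ).1 : ℤ)) : ZMod q) *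
      (c - (((t₀ + ((i, j) : ℕ × ℕ).2 : ℤ)) : ZMod q)) = 1 then 1 else 0) ≤ T / q + 1 := by
    intro i _
    rw [← Finset.card_filter]
    apply Omega.card_congr_le q T hq
    · intro n hn
      rw [mem_filter, mem_range] at hn
      exact hn.1.le
    · intro n hn n' hn'
      rw [mem_filter] at hn hn'
      exact congr_of_mul' q _ c t₀ n n' hn.2 hn'.2
  refine (Finset.sum_le_sum h1).trans ?_
  rw [Finset.sum_const, card_range, smul_eq_mul]

theorem one_add_log_le (δ : ℝ) (hδ : 0 < δ) (x : ℝ) (hx : 1 ≤ x) :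
    1 + Real.log x ≤ (1 + 1 / δ) * x ^ δ := by
  have h1 := Real.log_le_rpow_div (by linarith : (0 : ℝ) ≤ x) hδ
  have h2 : 1 ≤ x ^ δ := Real.one_le_rpow hx hδ.le
  calc 1 + Real.log x ≤ x ^ δ + x ^ δ / δ := by linarith
    _ = _ := by ring

/-- points of a modular hyperbola in a box -/
theorem box (η : ℝ) (hη : 0 < η) : ∃ C : ℝ, 1 ≤ C ∧ ∀ (q : ℕ), 0 < q → ∀ (c : ZMod q)
    (s₀ t₀ : ℤ) (S T : ℕ), (NN q c s₀ t₀ S T : ℝ) ≤
      C * (q : ℝ) ^ η * ((S : ℝ) * T / q + Real.sqrt q) := by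
  obtain ⟨K, hK1, hK⟩ := NN_bound
  obtain ⟨D, hD, hdiv⟩ := Pool.Agent.Helper112.divisor_bound (η / 4) (by positivity)
  set E : ℝ := 1 + 1 / (η / 4) with hE
  have hE1 : 1 ≤ E := by
    have : 0 < 1 / (η / 4) := by positivity
    linarith
  refine ⟨K * D ^ 2 * (3 * E ^ 2) + 2, by nlinarith [show 0 ≤ K * D ^ 2 * (3 * E ^ 2) by positivity], ?_⟩
  intro q hq0 c s₀ t₀ S T
  have : NeZero q := ⟨hq0.ne'⟩
  have hq : (0 : ℝ) < q := by exact_mod_cast hq0
  have hq1 : (1 : ℝ) ≤ q := by exact_mod_cast hq0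
  have hS0 : (0 : ℝ) ≤ S := Nat.cast_nonneg _
  have hT0 : (0 : ℝ) ≤ T := Nat.cast_nonneg _
  have hqη : 1 ≤ (q : ℝ) ^ η := Real.one_le_rpow hq1 hη.le
  have hsq : 0 ≤ Real.sqrt q := Real.sqrt_nonneg _
  have hA : 0 ≤ K * D ^ 2 * (3 * E ^ 2) := by positivity
  have hV : 0 ≤ (S : ℝ) * T / q + Real.sqrt q := by positivity
  have hfin : ∀ N : ℝ, N ≤ 2 * ((S : ℝ) * T / q) →
      N ≤ (K * D ^ 2 * (3 * E ^ 2) + 2) * (q : ℝ) ^ η * ((S : ℝ) * T / q + Real.sqrt q) := by
    intro N hN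
    calc N ≤ 2 * ((S : ℝ) * T / q) := hN
      _ ≤ 2 * ((S : ℝ) * T / q + Real.sqrt q) := by linarith
      _ ≤ ((K * D ^ 2 * (3 * E ^ 2) + 2) * (q : ℝ) ^ η) * ((S : ℝ) * T / q + Real.sqrt q) := by
          apply mul_le_mul_of_nonneg_right _ hV
          nlinarith
      _ = _ := by ring
  rcases le_or_gt S q with hS | hS
  · rcases le_or_gt T q with hT | hT
    · refine (hK q c s₀ t₀ S T hS hT).trans ?_
      have h1 := hdiv q hq0
      have h2 := one_add_log_le (η / 4) (by positivity) q hq1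
      have h3 : (2 : ℝ) ^ q.primeFactors.card ≤ q.divisors.card := by
        exact_mod_cast Omega.two_pow_le_divisors q hq0.ne'
      have hlog : 0 ≤ Real.log q := Real.log_nonneg hq1
      have hp0 : 0 ≤ (q : ℝ) ^ (η / 4) := by positivity
      set P := (q : ℝ) ^ (η / 4) with hP
      have hP4 : P ^ 4 = (q : ℝ) ^ η := by
        rw [hP, ← Real.rpow_natCast, ← Real.rpow_mul hq.le]
        congr 1
        push_cast
        ring
      have h4 : (2 : ℝ) ^ q.primeFactors.card * q.divisors.card ≤ (D * P) ^ 2 := by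
        rw [pow_two (D * P)]
        exact mul_le_mul (h3.trans h1) h1 (Nat.cast_nonneg _) (by positivity)
      have h5 : (1 + Real.log q) ^ 2 ≤ (E * P) ^ 2 := by
        apply pow_le_pow_left₀ (by linarith) h2
      have hEP : 1 ≤ 3 * (E * P) ^ 2 := by
        have : 1 ≤ (1 + Real.log q) ^ 2 := by nlinarith
        linarith
      have h6 : (S : ℝ) * T / q + 3 * (1 + Real.log q) ^ 2 * Real.sqrt q ≤
          3 * (E * P) ^ 2 * ((S : ℝ) * T / q + Real.sqrt q) := by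
        have a1 : 0 ≤ (S : ℝ) * T / q := by positivity
        have a2 : 1 * ((S : ℝ) * T / q) ≤ 3 * (E * P) ^ 2 * ((S : ℝ) * T / q) :=
          mul_le_mul_of_nonneg_right hEP a1
        have a3 : 3 * (1 + Real.log q) ^ 2 * Real.sqrt q ≤ 3 * (E * P) ^ 2 * Real.sqrt q :=
          mul_le_mul_of_nonneg_right (by linarith) hsq
        nlinarith
      calc K * 2 ^ q.primeFactors.card * q.divisors.card *
            ((S : ℝ) * T / q + 3 * (1 + Real.log q) ^ 2 * Real.sqrt q)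
          = K * ((2 : ℝ) ^ q.primeFactors.card * q.divisors.card) *
            ((S : ℝ) * T / q + 3 * (1 + Real.log q) ^ 2 * Real.sqrt q) := by ring
        _ ≤ K * (D * P) ^ 2 * (3 * (E * P) ^ 2 * ((S : ℝ) * T / q + Real.sqrt q)) := by
            apply mul_le_mul _ h6 _ (by positivity)
            · exact mul_le_mul_of_nonneg_left h4 (by linarith)
            · have : 0 ≤ 3 * (1 + Real.log q) ^ 2 * Real.sqrt q := by positivity
              have : 0 ≤ (S : ℝ) * T / q := by positivity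
              positivity
        _ = (K * D ^ 2 * (3 * E ^ 2)) * P ^ 4 * ((S : ℝ) * T / q + Real.sqrt q) := by ring
        _ = (K * D ^ 2 * (3 * E ^ 2)) * (q : ℝ) ^ η * ((S : ℝ) * T / q + Real.sqrt q) := by
            rw [hP4]
        _ ≤ _ := by
            apply mul_le_mul_of_nonneg_right _ hV
            apply mul_le_mul_of_nonneg_right _ (by positivity)
            linarith
    · apply hfin
      have h1 := NN_triv_right q hq0 c s₀ t₀ S T
      have h2 : (NN q c s₀ t₀ S T : ℝ) ≤ S * ((T / q : ℕ) + 1) := by exact_mod_cast h1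
      have h3 : ((T / q : ℕ) : ℝ) ≤ (T : ℝ) / q := Nat.cast_div_le
      have h4 : 1 ≤ (T : ℝ) / q := by
        rw [le_div_iff₀ hq, one_mul]
        exact_mod_cast hT.le
      calc (NN q c s₀ t₀ S T : ℝ) ≤ S * ((T / q : ℕ) + 1) := h2
        _ ≤ S * ((T : ℝ) / q + (T : ℝ) / q) := by
            apply mul_le_mul_of_nonneg_left _ hS0
            linarith
        _ = _ := by ring
  · apply hfin
    have h1 := NN_triv_left q hq0 c s₀ t₀ S T
    have h2 : (NN q c s₀ t₀ S T : ℝ) ≤ T * ((S / q : ℕ) + 1) := by exact_mod_cast h1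
    have h3 : ((S / q : ℕ) : ℝ) ≤ (S : ℝ) / q := Nat.cast_div_le
    have h4 : 1 ≤ (S : ℝ) / q := by
      rw [le_div_iff₀ hq, one_mul]
      exact_mod_cast hS.le
    calc (NN q c s₀ t₀ S T : ℝ) ≤ T * ((S / q : ℕ) + 1) := h2
      _ ≤ T * ((S : ℝ) / q + (S : ℝ) / q) := by
          apply mul_le_mul_of_nonneg_left _ hT0
          linarith
      _ = _ := by ring

end Pool.Agent.TH43.LK
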