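import Pool.Agent.TH43.LK.KlGcd
import Pool.Agent.H442R2.KF.Inc
import Pool.Agent.Helper112.Arith
import Pool.Agent.H95R2.Leh.Omega

/-!
# Points of a modular hyperbola in a box, general modulus
-/

set_option autoImplicit false

namespace Pool.Agent.TH43.LK

open Finset Pool.Agent.H442R2.KF.TaskB Pool.Agent.W305.CY

/-- the norm of a geometric sum -/
noncomputable def Gs (q : ℕ) [NeZero q] (H : ℕ) (w : ZMod q) : ℝ :=
  ‖∑ k ∈ range H, (ZMod.stdAddChar (w * (k : ZMod q)) : ℂ)‖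

theorem Gs_nonneg (q : ℕ) [NeZero q] (H : ℕ) (w : ZMod q) : 0 ≤ Gs q H w := norm_nonneg _

theorem Gs_neg (q : ℕ) [NeZero q] (H : ℕ) (w : ZMod q) : Gs q H (-w) = Gs q H w := by
  unfold Gs
  rw [← Complex.norm_conj, map_sum]
  congr 1
  refine Finset.sum_congr rfl fun k _ => ?_
  rw [neg_mul, AddChar.map_neg_eq_conj, Complex.conj_conj]

theorem Gs_sub (d r : ℕ) [NeZero r] [NeZero (d * r)] (hd : d ≠ 0) (H : ℕ) :
    ∑ w ∈ univ.filter (fun w : ZMod (d * r) => d ∣ w.val), Gs (d * r) H w ≤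
      H + r * (1 + Real.log r) := by
  have hd0 : 0 < d := Nat.pos_of_ne_zero hd
  have h1 : ∑ w ∈ univ.filter (fun w : ZMod (d * r) => d ∣ w.val), Gs (d * r) H w =
      ∑ v : ZMod r, Gs r H v := by
    symm
    have hlt : ∀ v : ZMod r, d * v.val < d * r := fun v =>
      Nat.mul_lt_mul_of_pos_left (ZMod.val_lt v) hd0
    refine Finset.sum_bij (fun v _ => ((d * v.val : ℕ) : ZMod (d * r))) ?_ ?_ ?_ ?_
    · intro v _
      rw [mem_filter]
      refine ⟨mem_univ _, ?_⟩
      rw [ZMod.val_natCast_of_lt (hlt v)]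
      exact Dvd.intro _ rfl
    · intro v _ v' _ h
      have h2 := congrArg ZMod.val h
      rw [ZMod.val_natCast_of_lt (hlt v), ZMod.val_natCast_of_lt (hlt v')] at h2
      exact ZMod.val_injective r (Nat.eq_of_mul_eq_mul_left hd0 h2)
    · intro w hw
      rw [mem_filter] at hw
      obtain ⟨t, ht⟩ := hw.2
      have htr : t < r := by
        have := ZMod.val_lt w
        rw [ht] at this
        exact Nat.lt_of_mul_lt_mul_left this
      refine ⟨(t : ZMod r), mem_univ _, ?_⟩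
      rw [ZMod.val_natCast_of_lt htr, ← ht]
      exact ZMod.natCast_zmod_val w
    · intro v _
      unfold Gs
      congr 1
      refine Finset.sum_congr rfl fun k _ => ?_
      have h2 := char_lift d r hd ((v.val : ℤ) * k)
      have h3 : ((((v.val : ℤ) * k : ℤ)) : ZMod r) = v * (k : ZMod r) := by
        push_cast
        rw [ZMod.natCast_zmod_val]
      have h4 : (((d * ((v.val : ℤ) * k) : ℤ)) : ZMod (d * r)) =
          ((d * v.val : ℕ) : ZMod (d * r)) * (k : ZMod (d * r)) := by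
        push_cast
        ring
      rw [h3] at h2
      rw [h4] at h2
      exact h2.symm
  rw [h1]
  exact Pool.Agent.H442R2.KF.Inc.sumgeom r H

theorem Gs_sub' (q d : ℕ) [NeZero q] (hd : d ∣ q) (H : ℕ) :
    ∑ w ∈ univ.filter (fun w : ZMod q => d ∣ w.val), Gs q H w ≤
      H + (q : ℝ) / d * (1 + Real.log q) := by
  obtain ⟨r, rfl⟩ := hd
  have hne : d * r ≠ 0 := NeZero.ne (d * r)
  have hd0 : d ≠ 0 := fun h => hne (by rw [h, zero_mul])
  have hr0 : r ≠ 0 := fun h => hne (by rw [h, mul_zero])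
  have : NeZero r := ⟨hr0⟩
  refine (Gs_sub d r hd0 H).trans ?_
  have hdr : (0 : ℝ) < d := by exact_mod_cast Nat.pos_of_ne_zero hd0
  have hrr : (0 : ℝ) < r := by exact_mod_cast Nat.pos_of_ne_zero hr0
  have h1 : (((d * r : ℕ) : ℝ)) / d = r := by
    push_cast
    field_simp
  rw [h1]
  have h2 : Real.log r ≤ Real.log ((d * r : ℕ) : ℝ) := by
    apply Real.log_le_log hrr
    have : r ≤ d * r := Nat.le_mul_of_pos_left r (Nat.pos_of_ne_zero hd0)
    exact_mod_cast this
  have := mul_le_mul_of_nonneg_left (add_le_add_right h2 1) hrr.le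
  linarith

/-- the number of points -/
noncomputable def NN (q : ℕ) (c : ZMod q) (s₀ t₀ : ℤ) (S T : ℕ) : ℕ :=
  ((range S ×ˢ range T).filter (fun ij : ℕ × ℕ =>
    (((s₀ + ij.1 : ℤ)) : ZMod q) * (c - (((t₀ + ij.2 : ℤ)) : ZMod q)) = 1)).card

theorem NN_le_norm (q : ℕ) [NeZero q] (c : ZMod q) (s₀ t₀ : ℤ) (S T : ℕ) :
    (q : ℝ) ^ 2 * (NN q c s₀ t₀ S T : ℝ) ≤
      ∑ w : ZMod q, ∑ h : ZMod q, ‖Kl q w h‖ * (Gs q S w * Gs q T h) := by
  classical
  have hq0 : (q : ℂ) ≠ 0 := by exact_mod_cast NeZero.ne q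
  -- the complex count
  set D : ZMod q → ℂ := fun z => ∑ w : ZMod q, (ZMod.stdAddChar (w * z) : ℂ) with hD
  have hDv : ∀ z : ZMod q, D z = if z = 0 then (q : ℂ) else 0 := by
    intro z
    have := AddChar.sum_mulShift (ψ := (ZMod.stdAddChar : AddChar (ZMod q) ℂ)) z
      (ZMod.isPrimitive_stdAddChar q)
    rw [hD]
    simp only
    rw [this, ZMod.card]
    split_ifs <;> simp
  set sv : ℕ → ZMod q := fun i => (((s₀ + i : ℤ)) : ZMod q) with hsv
  set tv : ℕ → ZMod q := fun j => c - (((t₀ + j : ℤ)) : ZMod q) with htv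
  set Z : ℂ := ∑ i ∈ range S, ∑ j ∈ range T, ∑ u : (ZMod q)ˣ,
    D ((u : ZMod q) - sv i) * D (((u⁻¹ : (ZMod q)ˣ) : ZMod q) - tv j) with hZ
  -- `Z` is `q ^ 2 * N`
  have hpt : ∀ i j : ℕ, ∑ u : (ZMod q)ˣ,
      D ((u : ZMod q) - sv i) * D (((u⁻¹ : (ZMod q)ˣ) : ZMod q) - tv j) =
      if sv i * tv j = 1 then (q : ℂ) ^ 2 else 0 := by
    intro i j
    have h1 : ∀ u : (ZMod q)ˣ,
        D ((u : ZMod q) - sv i) * D (((u⁻¹ : (ZMod q)ˣ) : ZMod q) - tv j) =
        if ((u : ZMod q) = sv i ∧ ((u⁻¹ : (ZMod q)ˣ) : ZMod q) = tv j) then (q : ℂ) ^ 2 else 0 := by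
      intro u
      rw [hDv, hDv]
      simp only [sub_eq_zero]
      by_cases ha : (u : ZMod q) = sv i
      · by_cases hb : ((u⁻¹ : (ZMod q)ˣ) : ZMod q) = tv j
        · rw [if_pos ha, if_pos hb, if_pos ⟨ha, hb⟩]
          ring
        · rw [if_pos ha, if_neg hb, if_neg (fun h => hb h.2), mul_zero]
      · rw [if_neg ha, zero_mul, if_neg (fun h => ha h.1)]
    rw [Finset.sum_congr rfl (fun u _ => h1 u)]
    by_cases h : sv i * tv j = 1
    · rw [if_pos h]
      have h' : tv j * sv i = 1 := by rw [mul_comm]; exact h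
      set u₀ : (ZMod q)ˣ := ⟨sv i, tv j, h, h'⟩ with hu₀
      rw [Finset.sum_eq_single u₀]
      · rw [if_pos]
        exact ⟨rfl, rfl⟩
      · intro u _ hu
        rw [if_neg]
        rintro ⟨h2, -⟩
        exact hu (Units.ext h2)
      · intro h2
        exact absurd (mem_univ _) h2
    · rw [if_neg h]
      apply Finset.sum_eq_zero
      intro u _
      rw [if_neg]
      rintro ⟨h2, h3⟩
      apply h
      rw [← h2, ← h3]
      exact u.mul_inv
  have hZN : Z = (q : ℂ) ^ 2 * (NN q c s₀ t₀ S T : ℂ) := by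
    rw [hZ]
    simp only [hpt]
    rw [← Finset.sum_product', ← Finset.sum_filter, Finset.sum_const, nsmul_eq_mul, mul_comm]
    rfl
  -- expansion
  have hexp : Z = ∑ w : ZMod q, ∑ h : ZMod q, Kl q w h *
      ((∑ i ∈ range S, (ZMod.stdAddChar (-(w * sv i)) : ℂ)) *
        (∑ j ∈ range T, (ZMod.stdAddChar (-(h * tv j)) : ℂ))) := by
    have h1 : ∀ i j : ℕ, ∀ u : (ZMod q)ˣ,
        D ((u : ZMod q) - sv i) * D (((u⁻¹ : (ZMod q)ˣ) : ZMod q) - tv j) =
        ∑ w : ZMod q, ∑ h : ZMod q,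
          (ZMod.stdAddChar (w * (u : ZMod q) + h * ((u⁻¹ : (ZMod q)ˣ) : ZMod q)) : ℂ) *
          ((ZMod.stdAddChar (-(w * sv i)) : ℂ) * (ZMod.stdAddChar (-(h * tv j)) : ℂ)) := by
      intro i j u
      rw [hD]
      simp only
      rw [Finset.sum_mul_sum]
      refine Finset.sum_congr rfl fun w _ => Finset.sum_congr rfl fun h _ => ?_
      rw [← AddChar.map_add_eq_mul, ← AddChar.map_add_eq_mul, ← AddChar.map_add_eq_mul]
      congr 1
      ring
    rw [hZ]
    simp only [h1]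
    -- move the sums over w, h outside
    calc ∑ i ∈ range S, ∑ j ∈ range T, ∑ u : (ZMod q)ˣ, ∑ w : ZMod q, ∑ h : ZMod q,
          (ZMod.stdAddChar (w * (u : ZMod q) + h * ((u⁻¹ : (ZMod q)ˣ) : ZMod q)) : ℂ) *
          ((ZMod.stdAddChar (-(w * sv i)) : ℂ) * (ZMod.stdAddChar (-(h * tv j)) : ℂ))
        = ∑ i ∈ range S, ∑ j ∈ range T, ∑ w : ZMod q, ∑ h : ZMod q, Kl q w h *
          ((ZMod.stdAddChar (-(w * sv i)) : ℂ) * (ZMod.stdAddChar (-(h * tv j)) : ℂ)) := by
          refine Finset.sum_congr rfl fun i _ => Finset.sum_congr rfl fun j _ => ?_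
          rw [Finset.sum_comm]
          refine Finset.sum_congr rfl fun w _ => ?_
          rw [Finset.sum_comm]
          refine Finset.sum_congr rfl fun h _ => ?_
          unfold Kl
          rw [Finset.sum_mul]
      _ = ∑ i ∈ range S, ∑ w : ZMod q, ∑ j ∈ range T, ∑ h : ZMod q, Kl q w h *
          ((ZMod.stdAddChar (-(w * sv i)) : ℂ) * (ZMod.stdAddChar (-(h * tv j)) : ℂ)) := by
          refine Finset.sum_congr rfl fun i _ => ?_
          rw [Finset.sum_comm]
      _ = ∑ w : ZMod q, ∑ i ∈ range S, ∑ j ∈ range T, ∑ h : ZMod q, Kl q w h *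
          ((ZMod.stdAddChar (-(w * sv i)) : ℂ) * (ZMod.stdAddChar (-(h * tv j)) : ℂ)) := by
          rw [Finset.sum_comm]
      _ = ∑ w : ZMod q, ∑ h : ZMod q, ∑ i ∈ range S, ∑ j ∈ range T, Kl q w h *
          ((ZMod.stdAddChar (-(w * sv i)) : ℂ) * (ZMod.stdAddChar (-(h * tv j)) : ℂ)) := by
          refine Finset.sum_congr rfl fun w _ => ?_
          rw [Finset.sum_comm' (s := (univ : Finset (ZMod q))) (t := fun _ => range S)
            (t' := range S) (s' := fun _ => univ) (by simp)]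
          refine Finset.sum_congr rfl fun i _ => ?_
          rw [Finset.sum_comm]
      _ = _ := by
          refine Finset.sum_congr rfl fun w _ => Finset.sum_congr rfl fun h _ => ?_
          rw [Finset.sum_mul_sum, Finset.mul_sum]
          refine Finset.sum_congr rfl fun i _ => ?_
          rw [Finset.mul_sum]
  have hs : ∀ w : ZMod q, ‖∑ i ∈ range S, (ZMod.stdAddChar (-(w * sv i)) : ℂ)‖ = Gs q S w := by
    intro w
    rw [← Gs_neg]
    unfold Gs
    have h1 : ∑ i ∈ range S, (ZMod.stdAddChar (-(w * sv i)) : ℂ) =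
        (ZMod.stdAddChar (-(w * (s₀ : ZMod q))) : ℂ) *
          ∑ i ∈ range S, (ZMod.stdAddChar (-w * (i : ZMod q)) : ℂ) := by
      rw [Finset.mul_sum]
      refine Finset.sum_congr rfl fun i _ => ?_
      rw [← AddChar.map_add_eq_mul, hsv]
      congr 1
      push_cast
      ring
    rw [h1, norm_mul, AddChar.norm_apply, one_mul]
  have ht : ∀ h : ZMod q, ‖∑ j ∈ range T, (ZMod.stdAddChar (-(h * tv j)) : ℂ)‖ = Gs q T h := by
    intro h
    unfold Gs
    have h1 : ∑ j ∈ range T, (ZMod.stdAddChar (-(h * tv j)) : ℂ) =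
        (ZMod.stdAddChar (-(h * (c - (t₀ : ZMod q)))) : ℂ) *
          ∑ j ∈ range T, (ZMod.stdAddChar (h * (j : ZMod q)) : ℂ) := by
      rw [Finset.mul_sum]
      refine Finset.sum_congr rfl fun j _ => ?_
      rw [← AddChar.map_add_eq_mul, htv]
      congr 1
      push_cast
      ring
    rw [h1, norm_mul, AddChar.norm_apply, one_mul]
  have hnZ : ‖Z‖ = (q : ℝ) ^ 2 * (NN q c s₀ t₀ S T : ℝ) := by
    rw [hZN, norm_mul, norm_pow, Complex.norm_natCast, Complex.norm_natCast]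
  rw [← hnZ, hexp]
  refine (norm_sum_le _ _).trans (Finset.sum_le_sum fun w _ => ?_)
  refine (norm_sum_le _ _).trans (Finset.sum_le_sum fun h _ => ?_)
  rw [norm_mul, norm_mul, hs, ht]

theorem sqrt_G_le (q : ℕ) [NeZero q] (w h : ZMod q) :
    Real.sqrt (G q (w.val : ℤ) (h.val : ℤ)) ≤
      ∑ d ∈ q.divisors, if (d ∣ w.val ∧ d ∣ h.val) then Real.sqrt d else 0 := by
  have hq : q ≠ 0 := NeZero.ne q
  set g := G q (w.val : ℤ) (h.val : ℤ) with hg
  have h1 : g ∣ q := Nat.gcd_dvd_left _ _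
  have h2 : g ∣ Int.gcd (w.val : ℤ) (h.val : ℤ) := Nat.gcd_dvd_right _ _
  rw [Int.gcd_natCast_natCast] at h2
  have h3 : g ∣ w.val := h2.trans (Nat.gcd_dvd_left _ _)
  have h4 : g ∣ h.val := h2.trans (Nat.gcd_dvd_right _ _)
  have h5 : (if (g ∣ w.val ∧ g ∣ h.val) then Real.sqrt g else 0) = Real.sqrt g := if_pos ⟨h3, h4⟩
  rw [← h5]
  apply Finset.single_le_sum (f := fun d : ℕ => if (d ∣ w.val ∧ d ∣ h.val) then Real.sqrt d else 0)
  · intro d _
    split_ifs
    · exact Real.sqrt_nonneg _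
    · exact le_rfl
  · rw [Nat.mem_divisors]
    exact ⟨h1, hq⟩

/-- the number of points, first bound -/
theorem NN_bound : ∃ K : ℝ, 1 ≤ K ∧ ∀ (q : ℕ) [NeZero q] (c : ZMod q) (s₀ t₀ : ℤ) (S T : ℕ),
    S ≤ q → T ≤ q → (NN q c s₀ t₀ S T : ℝ) ≤
      K * 2 ^ q.primeFactors.card * q.divisors.card *
        ((S : ℝ) * T / q + 3 * (1 + Real.log q) ^ 2 * Real.sqrt q) := by
  obtain ⟨K, hK1, hK⟩ := Kl_gcd
  refine ⟨K, hK1, ?_⟩
  intro q _ c s₀ t₀ S T hS hT
  have hq0 : 0 < q := Nat.pos_of_ne_zero (NeZero.ne q)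
  have hq : (0 : ℝ) < q := by exact_mod_cast hq0
  have hq1 : (1 : ℝ) ≤ q := by exact_mod_cast hq0
  have hlog : 0 ≤ Real.log q := Real.log_nonneg hq1
  set l := 1 + Real.log q with hl
  have hl1 : 1 ≤ l := by linarith
  set M := K * 2 ^ q.primeFactors.card * Real.sqrt q with hM
  have hM0 : 0 ≤ M := by positivity
  have hsq : 0 < Real.sqrt q := Real.sqrt_pos.2 hq
  have hss : Real.sqrt q * Real.sqrt q = q := Real.mul_self_sqrt hq.le
  have hS' : (S : ℝ) ≤ q := by exact_mod_cast hS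
  have hT' : (T : ℝ) ≤ q := by exact_mod_cast hT
  have hS0 : (0 : ℝ) ≤ S := Nat.cast_nonneg _
  have hT0 : (0 : ℝ) ≤ T := Nat.cast_nonneg _
  -- Step 1
  have h1 : ∀ w h : ZMod q, ‖Kl q w h‖ ≤
      M * ∑ d ∈ q.divisors, if (d ∣ w.val ∧ d ∣ h.val) then Real.sqrt d else 0 := by
    intro w h
    have h2 := hK q (w.val : ℤ) (h.val : ℤ)
    rw [Int.cast_natCast, Int.cast_natCast, ZMod.natCast_zmod_val, ZMod.natCast_zmod_val] at h2
    exact h2.trans (mul_le_mul_of_nonneg_left (sqrt_G_le q w h) hM0)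
  have h2 : ∑ w : ZMod q, ∑ h : ZMod q, ‖Kl q w h‖ * (Gs q S w * Gs q T h) ≤
      M * ∑ d ∈ q.divisors, Real.sqrt d *
        ((∑ w ∈ univ.filter (fun w : ZMod q => d ∣ w.val), Gs q S w) *
          (∑ h ∈ univ.filter (fun h : ZMod q => d ∣ h.val), Gs q T h)) := by
    calc ∑ w : ZMod q, ∑ h : ZMod q, ‖Kl q w h‖ * (Gs q S w * Gs q T h)
        ≤ ∑ w : ZMod q, ∑ h : ZMod q,
          (M * ∑ d ∈ q.divisors, if (d ∣ w.val ∧ d ∣ h.val) then Real.sqrt d else 0) *
            (Gs q S w * Gs q T h) := by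
          refine Finset.sum_le_sum fun w _ => Finset.sum_le_sum fun h _ => ?_
          exact mul_le_mul_of_nonneg_right (h1 w h) (mul_nonneg (Gs_nonneg _ _ _) (Gs_nonneg _ _ _))
      _ = M * ∑ d ∈ q.divisors, ∑ w : ZMod q, ∑ h : ZMod q,
          (if (d ∣ w.val ∧ d ∣ h.val) then Real.sqrt d else 0) * (Gs q S w * Gs q T h) := by
          rw [Finset.mul_sum]
          have e1 : ∀ w h : ZMod q,
              (M * ∑ d ∈ q.divisors, if (d ∣ w.val ∧ d ∣ h.val) then Real.sqrt d else 0) *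
                (Gs q S w * Gs q T h) =
              ∑ d ∈ q.divisors, M * ((if (d ∣ w.val ∧ d ∣ h.val) then Real.sqrt d else 0) *
                (Gs q S w * Gs q T h)) := by
            intro w h
            rw [mul_assoc, Finset.sum_mul, Finset.mul_sum]
          simp only [e1]
          calc ∑ w : ZMod q, ∑ h : ZMod q, ∑ d ∈ q.divisors,
                M * ((if (d ∣ w.val ∧ d ∣ h.val) then Real.sqrt d else 0) *
                (Gs q S w * Gs q T h)) =
              ∑ w : ZMod q, ∑ d ∈ q.divisors, ∑ h : ZMod q,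
                M * ((if (d ∣ w.val ∧ d ∣ h.val) then Real.sqrt d else 0) *
                (Gs q S w * Gs q T h)) :=
                Finset.sum_congr rfl fun w _ => Finset.sum_comm
            _ = ∑ d ∈ q.divisors, ∑ w : ZMod q, ∑ h : ZMod q,
                M * ((if (d ∣ w.val ∧ d ∣ h.val) then Real.sqrt d else 0) *
                (Gs q S w * Gs q T h)) := Finset.sum_comm
            _ = _ := by
                refine Finset.sum_congr rfl fun d _ => ?_
                rw [Finset.mul_sum]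
                refine Finset.sum_congr rfl fun w _ => ?_
                rw [Finset.mul_sum]
      _ = _ := by
          congr 1
          refine Finset.sum_congr rfl fun d _ => ?_
          rw [Finset.sum_mul_sum, Finset.mul_sum, Finset.sum_filter]
          refine Finset.sum_congr rfl fun w _ => ?_
          by_cases hw : d ∣ w.val
          · rw [if_pos hw, Finset.mul_sum, Finset.sum_filter]
            refine Finset.sum_congr rfl fun h _ => ?_
            by_cases hh : d ∣ h.val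
            · rw [if_pos ⟨hw, hh⟩, if_pos hh]
            · rw [if_neg (fun h' => hh h'.2), if_neg hh, zero_mul]
          · rw [if_neg hw]
            apply Finset.sum_eq_zero
            intro h _
            rw [if_neg (fun h' => hw h'.1), zero_mul]
  -- Step 2: each divisor
  have h3 : ∀ d ∈ q.divisors, Real.sqrt d *
        ((∑ w ∈ univ.filter (fun w : ZMod q => d ∣ w.val), Gs q S w) *
          (∑ h ∈ univ.filter (fun h : ZMod q => d ∣ h.val), Gs q T h)) ≤
      Real.sqrt q * (S * T) + q * l * (S + T) + (q : ℝ) ^ 2 * l ^ 2 := by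
    intro d hd
    rw [Nat.mem_divisors] at hd
    have hd0 : 0 < d := Nat.pos_of_dvd_of_pos hd.1 hq0
    have hdr : (0 : ℝ) < d := by exact_mod_cast hd0
    have hd1 : (1 : ℝ) ≤ d := by exact_mod_cast hd0
    have hdq : (d : ℝ) ≤ q := by exact_mod_cast Nat.le_of_dvd hq0 hd.1
    have a1 := Gs_sub' q d hd.1 S
    have a2 := Gs_sub' q d hd.1 T
    have p1 : 0 ≤ ∑ w ∈ univ.filter (fun w : ZMod q => d ∣ w.val), Gs q S w :=
      Finset.sum_nonneg fun w _ => Gs_nonneg _ _ _
    have p2 : 0 ≤ ∑ w ∈ univ.filter (fun w : ZMod q => d ∣ w.val), Gs q T w :=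
      Finset.sum_nonneg fun w _ => Gs_nonneg _ _ _
    have hsd1 : Real.sqrt d ≤ Real.sqrt q := Real.sqrt_le_sqrt hdq
    have hsd2 : Real.sqrt d ≤ d := by
      rw [Real.sqrt_le_left hdr.le]
      nlinarith
    have hsd0 : 0 ≤ Real.sqrt d := Real.sqrt_nonneg _
    have hqd : 0 ≤ (q : ℝ) / d := by positivity
    have hqd2 : (q : ℝ) / d ≤ q := div_le_self hq.le hd1
    have e1 : Real.sqrt d * ((q : ℝ) / d) ≤ q := by
      calc Real.sqrt d * ((q : ℝ) / d) ≤ d * ((q : ℝ) / d) :=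
            mul_le_mul_of_nonneg_right hsd2 hqd
        _ = q := by field_simp
    calc Real.sqrt d *
        ((∑ w ∈ univ.filter (fun w : ZMod q => d ∣ w.val), Gs q S w) *
          (∑ h ∈ univ.filter (fun h : ZMod q => d ∣ h.val), Gs q T h))
        ≤ Real.sqrt d * ((S + (q : ℝ) / d * l) * (T + (q : ℝ) / d * l)) := by
          apply mul_le_mul_of_nonneg_left _ hsd0
          exact mul_le_mul a1 a2 p2 (by positivity)
      _ = Real.sqrt d * (S * T) + (Real.sqrt d * ((q : ℝ) / d)) * (l * (S + T)) +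
          (Real.sqrt d * ((q : ℝ) / d)) * ((q : ℝ) / d * l ^ 2) := by ring
      _ ≤ Real.sqrt q * (S * T) + q * (l * (S + T)) + q * (q * l ^ 2) := by
          apply add_le_add (add_le_add _ _) _
          · exact mul_le_mul_of_nonneg_right hsd1 (by positivity)
          · exact mul_le_mul_of_nonneg_right e1 (by positivity)
          · apply mul_le_mul e1 _ (by positivity) hq.le
            exact mul_le_mul_of_nonneg_right hqd2 (by positivity)
      _ = _ := by ring
  have h4 := (NN_le_norm q c s₀ t₀ S T).trans (h2.trans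
    (mul_le_mul_of_nonneg_left (Finset.sum_le_sum h3) hM0))
  rw [Finset.sum_const, nsmul_eq_mul] at h4
  -- Step 3: divide by q ^ 2
  have h5 : (NN q c s₀ t₀ S T : ℝ) ≤ M * (q.divisors.card *
      (Real.sqrt q * (S * T) + q * l * (S + T) + (q : ℝ) ^ 2 * l ^ 2)) / (q : ℝ) ^ 2 := by
    rw [le_div_iff₀ (by positivity), mul_comm]
    exact h4
  refine h5.trans ?_
  rw [div_le_iff₀ (by positivity), hM]
  have h6 : Real.sqrt q * (Real.sqrt q * (S * T) + q * l * (S + T) + (q : ℝ) ^ 2 * l ^ 2) ≤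
      ((S : ℝ) * T / q + 3 * l ^ 2 * Real.sqrt q) * (q : ℝ) ^ 2 := by
    have e2 : Real.sqrt q * (Real.sqrt q * (S * T)) = ((S : ℝ) * T / q) * (q : ℝ) ^ 2 := by
      rw [← mul_assoc, hss]
      field_simp
    have e3 : l * ((S : ℝ) + T) ≤ 2 * q * l ^ 2 := by
      have h7 : (S : ℝ) + T ≤ 2 * q := by linarith
      have h8 : l ≤ l ^ 2 := by nlinarith
      calc l * ((S : ℝ) + T) ≤ l * (2 * q) := mul_le_mul_of_nonneg_left h7 (by linarith)
        _ = 2 * q * l := by ring
        _ ≤ 2 * q * l ^ 2 := mul_le_mul_of_nonneg_left h8 (by positivity)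
    have e4 : Real.sqrt q * (q * l * (S + T)) ≤ Real.sqrt q * (q * (2 * q * l ^ 2)) := by
      apply mul_le_mul_of_nonneg_left _ hsq.le
      calc (q : ℝ) * l * (S + T) = q * (l * (S + T)) := by ring
        _ ≤ _ := mul_le_mul_of_nonneg_left e3 hq.le
    calc Real.sqrt q * (Real.sqrt q * (S * T) + q * l * (S + T) + (q : ℝ) ^ 2 * l ^ 2) =
          Real.sqrt q * (Real.sqrt q * (S * T)) + Real.sqrt q * (q * l * (S + T)) +
            Real.sqrt q * ((q : ℝ) ^ 2 * l ^ 2) := by ring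
      _ ≤ ((S : ℝ) * T / q) * (q : ℝ) ^ 2 + Real.sqrt q * (q * (2 * q * l ^ 2)) +
            Real.sqrt q * ((q : ℝ) ^ 2 * l ^ 2) := by linarith
      _ = _ := by ring
  calc K * 2 ^ q.primeFactors.card * Real.sqrt q * (q.divisors.card *
      (Real.sqrt q * (S * T) + q * l * (S + T) + (q : ℝ) ^ 2 * l ^ 2)) =
      K * 2 ^ q.primeFactors.card * q.divisors.card * (Real.sqrt q *
      (Real.sqrt q * (S * T) + q * l * (S + T) + (q : ℝ) ^ 2 * l ^ 2)) := by ring
    _ ≤ K * 2 ^ q.primeFactors.card * q.divisors.card *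
        (((S : ℝ) * T / q + 3 * l ^ 2 * Real.sqrt q) * (q : ℝ) ^ 2) :=
        mul_le_mul_of_nonneg_left h6 (by positivity)
    _ = _ := by ring

end Pool.Agent.TH43.LK
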