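import Pool.Agent.W305.CY.Weil
import Pool.Agent.W74.CY.WPP

/-!
# Kloosterman sums to a general modulus, with the greatest common divisor
-/

set_option autoImplicit false

namespace Pool.Agent.TH43.LK

open Finset Pool.Agent.H442R2.KF.TaskB Pool.Agent.W305.CY

theorem Kl_symm (q : ℕ) [NeZero q] (w c : ZMod q) : Kl q w c = Kl q c w := by
  unfold Kl
  rw [← Equiv.sum_comp (Equiv.inv (ZMod q)ˣ)]
  refine Finset.sum_congr rfl fun u _ => ?_
  simp only [Equiv.inv_apply, inv_inv]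
  rw [add_comm]

theorem Kl_triv (q : ℕ) [NeZero q] (w c : ZMod q) : ‖Kl q w c‖ ≤ q.totient := by
  unfold Kl
  refine (norm_sum_le _ _).trans ?_
  have h2 : ∀ u : (ZMod q)ˣ, ‖(ZMod.stdAddChar (w * (u : ZMod q) +
      c * ((u⁻¹ : (ZMod q)ˣ) : ZMod q)) : ℂ)‖ ≤ 1 := by
    intro u
    rw [ZMod.stdAddChar_apply]
    exact (Circle.norm_coe _).le
  refine (Finset.sum_le_sum fun u _ => h2 u).trans ?_
  rw [Finset.sum_const, Finset.card_univ, ZMod.card_units_eq_totient]
  simp

theorem char_lift (p q : ℕ) [NeZero q] [NeZero (p * q)] (hp : p ≠ 0) (z : ℤ) :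
    (ZMod.stdAddChar (((p * z : ℤ)) : ZMod (p * q)) : ℂ) = ZMod.stdAddChar ((z : ℤ) : ZMod q) := by
  rw [ZMod.stdAddChar_coe, ZMod.stdAddChar_coe]
  congr 1
  have n1 : (p : ℂ) ≠ 0 := by exact_mod_cast hp
  have n2 : (q : ℂ) ≠ 0 := by exact_mod_cast NeZero.ne q
  push_cast
  field_simp

theorem Kl_lift (p q : ℕ) [NeZero q] [NeZero (p * q)] (hp : p.Prime) (hpq : p ∣ q) (a b : ℤ) :
    Kl (p * q) ((p * a : ℤ) : ZMod (p * q)) ((p * b : ℤ) : ZMod (p * q)) =
      p * Kl q (a : ZMod q) (b : ZMod q) := by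
  classical
  have hd : q ∣ p * q := Dvd.intro_left p rfl
  set φ := ZMod.unitsMap hd with hφ
  have hsurj : Function.Surjective φ := ZMod.unitsMap_surjective hd
  set F : (ZMod q)ˣ → ℂ := fun v => ZMod.stdAddChar ((a : ZMod q) * (v : ZMod q) +
    (b : ZMod q) * ((v⁻¹ : (ZMod q)ˣ) : ZMod q)) with hF
  have h1 : Kl (p * q) ((p * a : ℤ) : ZMod (p * q)) ((p * b : ℤ) : ZMod (p * q)) =
      ∑ u : (ZMod (p * q))ˣ, F (φ u) := by
    unfold Kl
    refine Finset.sum_congr rfl fun u _ => ?_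
    obtain ⟨j, hj⟩ := ZMod.intCast_surjective (u : ZMod (p * q))
    obtain ⟨j', hj'⟩ := ZMod.intCast_surjective ((u⁻¹ : (ZMod (p * q))ˣ) : ZMod (p * q))
    have e1 : ((φ u : (ZMod q)ˣ) : ZMod q) = (j : ZMod q) := by
      rw [hφ, ZMod.unitsMap_val, ← hj]
      exact ZMod.cast_intCast hd j
    have e2 : (((φ u)⁻¹ : (ZMod q)ˣ) : ZMod q) = (j' : ZMod q) := by
      rw [← map_inv, hφ, ZMod.unitsMap_val, ← hj']
      exact ZMod.cast_intCast hd j'
    rw [hF]
    simp only
    rw [e1, e2, ← hj, ← hj']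
    have e3 : ((p * a : ℤ) : ZMod (p * q)) * (j : ZMod (p * q)) +
        ((p * b : ℤ) : ZMod (p * q)) * (j' : ZMod (p * q)) =
        (((p * (a * j + b * j') : ℤ)) : ZMod (p * q)) := by
      push_cast; ring
    have e4 : (a : ZMod q) * (j : ZMod q) + (b : ZMod q) * (j' : ZMod q) =
        ((a * j + b * j' : ℤ) : ZMod q) := by
      push_cast; ring
    rw [e3, e4]
    exact char_lift p q hp.ne_zero _
  rw [h1, ← Finset.sum_fiberwise' univ φ F]
  set c := (univ.filter (fun u : (ZMod (p * q))ˣ => φ u = 1)).card with hc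
  have hcard : ∀ v : (ZMod q)ˣ, (univ.filter (fun u : (ZMod (p * q))ˣ => φ u = v)).card = c := by
    intro v
    exact MonoidHom.card_fiber_eq_of_mem_range φ (hsurj v) ⟨1, map_one φ⟩
  have hcp : c = p := by
    have h2 : (univ : Finset (ZMod (p * q))ˣ).card =
        ∑ v : (ZMod q)ˣ, (univ.filter (fun u : (ZMod (p * q))ˣ => φ u = v)).card :=
      Finset.card_eq_sum_card_fiberwise (fun u _ => mem_univ _)
    rw [Finset.sum_congr rfl (fun v _ => hcard v), Finset.sum_const, Finset.card_univ,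
      Finset.card_univ, ZMod.card_units_eq_totient, ZMod.card_units_eq_totient,
      Nat.totient_mul_of_prime_of_dvd hp hpq, smul_eq_mul, mul_comm] at h2
    have h3 : 0 < q.totient := Nat.totient_pos.2 (Nat.pos_of_ne_zero (NeZero.ne q))
    exact (Nat.eq_of_mul_eq_mul_left h3 h2).symm
  have h5 : ∀ v : (ZMod q)ˣ, ∑ u ∈ univ.filter (fun u : (ZMod (p * q))ˣ => φ u = v), F v =
      (p : ℂ) * F v := by
    intro v
    rw [Finset.sum_const, hcard v, hcp, nsmul_eq_mul]
  rw [Finset.sum_congr rfl (fun v _ => h5 v), ← Finset.mul_sum]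
  rfl

/-- the greatest common divisor of the modulus and two integers -/
def G (q : ℕ) (a b : ℤ) : ℕ := Nat.gcd q (Int.gcd a b)

theorem G_pos (q : ℕ) (hq : q ≠ 0) (a b : ℤ) : 1 ≤ G q a b :=
  Nat.gcd_pos_of_pos_left _ (Nat.pos_of_ne_zero hq)

theorem one_le_sqrt_G (q : ℕ) (hq : q ≠ 0) (a b : ℤ) : 1 ≤ Real.sqrt (G q a b) := by
  rw [Real.one_le_sqrt]
  exact_mod_cast G_pos q hq a b

/-- prime powers -/
theorem Kl_pp (B : ℝ) (hB : 1 ≤ B) (p : ℕ) (hp : p.Prime)
    (hu : ∀ k : ℕ, ∀ [NeZero (p ^ k)], ∀ w c : ZMod (p ^ k), IsUnit c →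
      ‖Kl (p ^ k) w c‖ ≤ B * Real.sqrt ((p ^ k : ℕ) : ℝ)) (k : ℕ) :
    ∀ [NeZero (p ^ k)], ∀ a b : ℤ,
      ‖Kl (p ^ k) (a : ZMod (p ^ k)) (b : ZMod (p ^ k))‖ ≤
        B * Real.sqrt ((p ^ k : ℕ) : ℝ) * Real.sqrt (G (p ^ k) a b) := by
  have hunit : ∀ k : ℕ, ∀ b : ℤ, ¬ (p : ℤ) ∣ b → IsUnit ((b : ℤ) : ZMod (p ^ k)) := by
    intro k b hb
    rw [ZMod.coe_int_isUnit_iff_isCoprime]
    have h1 : IsCoprime ((p : ℕ) : ℤ) b := by
      rw [Int.isCoprime_iff_gcd_eq_one, Int.gcd_eq_natAbs, Int.natAbs_natCast]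
      rw [← Nat.coprime_iff_gcd_eq_one, hp.coprime_iff_not_dvd]
      intro h
      exact hb (Int.natCast_dvd.2 h)
    push_cast
    exact h1.pow_left
  induction k with
  | zero =>
    intro _ a b
    refine (Kl_triv _ _ _).trans ?_
    have h1 := one_le_sqrt_G (p ^ 0) (by simp) a b
    have h2 : (Nat.totient (p ^ 0) : ℝ) = 1 := by simp
    have h3 : Real.sqrt ((p ^ 0 : ℕ) : ℝ) = 1 := by simp
    rw [h2, h3]
    nlinarith
  | succ k ih =>
    intro _ a b
    have hB0 : 0 ≤ B := by linarith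
    have hG1 := one_le_sqrt_G (p ^ (k + 1)) (NeZero.ne _) a b
    have hs0 : 0 ≤ Real.sqrt ((p ^ (k + 1) : ℕ) : ℝ) := Real.sqrt_nonneg _
    have hsB : 0 ≤ B * Real.sqrt ((p ^ (k + 1) : ℕ) : ℝ) := mul_nonneg hB0 hs0
    by_cases hb : (p : ℤ) ∣ b
    swap
    · refine (hu (k + 1) _ _ (hunit (k + 1) b hb)).trans ?_
      nlinarith
    by_cases ha : (p : ℤ) ∣ a
    swap
    · rw [Kl_symm]
      refine (hu (k + 1) _ _ (hunit (k + 1) a ha)).trans ?_
      nlinarith
    obtain ⟨a', rfl⟩ := ha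
    obtain ⟨b', rfl⟩ := hb
    have hGG : G (p ^ (k + 1)) (p * a') (p * b') = p * G (p ^ k) a' b' := by
      unfold G
      rw [Int.gcd_mul_left, Int.natAbs_natCast, pow_succ', Nat.gcd_mul_left]
    rw [hGG]
    have hpr : (0 : ℝ) < p := by exact_mod_cast hp.pos
    have hpp : Real.sqrt p * Real.sqrt p = p := Real.mul_self_sqrt hpr.le
    rcases Nat.eq_zero_or_pos k with hk | hk
    · subst hk
      refine (Kl_triv _ _ _).trans ?_
      have h2 : (Nat.totient (p ^ (0 + 1)) : ℝ) ≤ p := by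
        have := Nat.totient_le (p ^ (0 + 1))
        rw [zero_add, pow_one] at this ⊢
        exact_mod_cast this
      have h3 : Real.sqrt ((p ^ (0 + 1) : ℕ) : ℝ) = Real.sqrt p := by simp
      have h4 : Real.sqrt p ≤ Real.sqrt ((p * G (p ^ 0) a' b' : ℕ) : ℝ) := by
        apply Real.sqrt_le_sqrt
        have := G_pos (p ^ 0) (by simp) a' b'
        have h5 : p ≤ p * G (p ^ 0) a' b' := Nat.le_mul_of_pos_right p this
        exact_mod_cast h5
      rw [h3]
      have h6 : Real.sqrt p * Real.sqrt p ≤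
          Real.sqrt p * Real.sqrt ((p * G (p ^ 0) a' b' : ℕ) : ℝ) :=
        mul_le_mul_of_nonneg_left h4 (Real.sqrt_nonneg _)
      have h7 : 0 ≤ Real.sqrt p * Real.sqrt ((p * G (p ^ 0) a' b' : ℕ) : ℝ) := by positivity
      calc (Nat.totient (p ^ (0 + 1)) : ℝ) ≤ 1 * (Real.sqrt p * Real.sqrt p) := by
            rw [hpp, one_mul]; exact h2
        _ ≤ B * (Real.sqrt p * Real.sqrt ((p * G (p ^ 0) a' b' : ℕ) : ℝ)) := by
            apply mul_le_mul hB h6 (by positivity) hB0
        _ = _ := by ring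
    · have hne : NeZero (p ^ k) := ⟨pow_ne_zero _ hp.ne_zero⟩
      have ih' := ih a' b'
      have hgen : ∀ (n : ℕ) [NeZero n], n = p * p ^ k →
          ‖Kl n ((p * a' : ℤ) : ZMod n) ((p * b' : ℤ) : ZMod n)‖ ≤
            p * ‖Kl (p ^ k) (a' : ZMod (p ^ k)) (b' : ZMod (p ^ k))‖ := by
        intro n _ hn
        subst hn
        rw [Kl_lift p (p ^ k) hp (dvd_pow_self p (by omega)) a' b', norm_mul,
          Complex.norm_natCast]
      refine (hgen (p ^ (k + 1)) (pow_succ' p k)).trans ?_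
      have e1 : Real.sqrt ((p ^ (k + 1) : ℕ) : ℝ) = Real.sqrt p * Real.sqrt ((p ^ k : ℕ) : ℝ) := by
        rw [← Real.sqrt_mul hpr.le]
        congr 1
        push_cast
        ring
      have e2 : Real.sqrt ((p * G (p ^ k) a' b' : ℕ) : ℝ) =
          Real.sqrt p * Real.sqrt (G (p ^ k) a' b') := by
        rw [← Real.sqrt_mul hpr.le]
        congr 1
        push_cast
        ring
      rw [e1, e2]
      calc (p : ℝ) * ‖Kl (p ^ k) (a' : ZMod (p ^ k)) (b' : ZMod (p ^ k))‖ ≤
            p * (B * Real.sqrt ((p ^ k : ℕ) : ℝ) * Real.sqrt (G (p ^ k) a' b')) :=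
            mul_le_mul_of_nonneg_left ih' hpr.le
        _ = (Real.sqrt p * Real.sqrt p) *
            (B * Real.sqrt ((p ^ k : ℕ) : ℝ) * Real.sqrt (G (p ^ k) a' b')) := by rw [hpp]
        _ = _ := by ring

theorem G_unit (q : ℕ) (α a b : ℤ) (h : IsCoprime (q : ℤ) α) :
    G q (α * a) (α * b) = G q a b := by
  unfold G
  rw [Int.gcd_mul_left]
  have : Nat.Coprime q α.natAbs := by
    rw [Int.isCoprime_iff_gcd_eq_one] at h
    simpa [Int.gcd_eq_natAbs] using h
  exact Nat.Coprime.gcd_mul_left_cancel_right _ this.symm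

theorem G_mul (q1 q2 : ℕ) (h : Nat.Coprime q1 q2) (a b : ℤ) :
    G (q1 * q2) a b = G q1 a b * G q2 a b := by
  unfold G
  rw [Nat.gcd_comm, h.gcd_mul, Nat.gcd_comm, Nat.gcd_comm _ q2]

/-- the Kloosterman sum with the greatest common divisor -/
theorem Kl_gcd : ∃ K : ℝ, 1 ≤ K ∧ ∀ (q : ℕ) [NeZero q] (a b : ℤ),
    ‖Kl q (a : ZMod q) (b : ZMod q)‖ ≤
      K * 2 ^ q.primeFactors.card * Real.sqrt q * Real.sqrt (G q a b) := by
  obtain ⟨C, hC, hW⟩ := Pool.Agent.W74.CY.wpp
  have hK1 : (1 : ℝ) ≤ max C 1 := le_max_right _ _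
  refine ⟨max C 1, hK1, ?_⟩
  have main : ∀ q : ℕ, ∀ [NeZero q], ∀ a b : ℤ, ‖Kl q (a : ZMod q) (b : ZMod q)‖ ≤
      fK (max C 1) q * 2 ^ q.primeFactors.card * Real.sqrt q * Real.sqrt (G q a b) := by
    intro q
    induction q using Nat.recOnPosPrimePosCoprime with
    | zero => intro h; exact absurd rfl h.out
    | one =>
      intro _ a b
      refine (Kl_triv _ _ _).trans ?_
      have h1 := one_le_sqrt_G 1 (by simp) a b
      unfold fK
      simp
      exact G_pos 1 (by simp) a b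
    | prime_pow p k hp hk =>
      intro _ a b
      have hpf : ∀ k : ℕ, 0 < k → (p ^ k).primeFactors.card = 1 := by
        intro k hk
        rw [Nat.primeFactors_prime_pow hk.ne' hp, Finset.card_singleton]
      have hfK : ∀ k : ℕ, fK (max C 1) (p ^ k) ≤ fK (max C 1) p := by
        intro k
        unfold fK
        by_cases h2 : 2 ∣ p ^ k
        · rw [if_pos h2, if_pos (Nat.prime_two.dvd_of_dvd_pow h2)]
        · rw [if_neg h2]
          split_ifs
          · exact hK1
          · exact le_rfl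
      have hfKe : fK (max C 1) (p ^ k) = fK (max C 1) p := by
        unfold fK
        by_cases h2 : 2 ∣ p
        · rw [if_pos h2, if_pos (dvd_pow h2 hk.ne')]
        · rw [if_neg h2, if_neg (fun h => h2 (Nat.prime_two.dvd_of_dvd_pow h))]
      have hf1 : 1 ≤ fK (max C 1) p := by
        unfold fK
        split_ifs
        · exact hK1
        · exact le_rfl
      have := Kl_pp (fK (max C 1) p * 2) (by linarith) p hp (by
        intro k _ w c hc
        have h1 := Kl_gen hW (p ^ k) w c hc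
        refine h1.trans ?_
        apply mul_le_mul_of_nonneg_right _ (Real.sqrt_nonneg _)
        apply mul_le_mul (hfK k) _ (by positivity) (by linarith)
        rcases Nat.eq_zero_or_pos k with h0 | h0
        · subst h0
          simp
        · rw [hpf k h0, pow_one]) k a b
      rw [hfKe, hpf k hk, pow_one]
      exact this
    | coprime m n hm hn hcop ihm ihn =>
      intro _ a b
      have hm0 : NeZero m := ⟨by omega⟩
      have hn0 : NeZero n := ⟨by omega⟩
      obtain ⟨α, β, hαβ⟩ : ∃ α β : ℤ, α * n + β * m = 1 := by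
        have h2 : IsCoprime (n : ℤ) (m : ℤ) := Nat.isCoprime_iff_coprime.mpr hcop.symm
        obtain ⟨x, y, hxy⟩ := h2
        exact ⟨x, y, hxy⟩
      rw [Kl_mul m n hcop α β hαβ, norm_mul]
      have e1 : ∀ c : ℤ, ZMod.chineseRemainder hcop ((c : ℤ) : ZMod (m * n)) =
          ((c : ZMod m), (c : ZMod n)) := by
        intro c
        rw [map_intCast]
        rfl
      rw [e1 a, e1 b]
      have e2 : ∀ c : ℤ, (α : ZMod m) * (c : ZMod m) = ((α * c : ℤ) : ZMod m) := by
        intro c; push_cast; ring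
      have e3 : ∀ c : ℤ, (β : ZMod n) * (c : ZMod n) = ((β * c : ℤ) : ZMod n) := by
        intro c; push_cast; ring
      simp only [e2, e3]
      have b1 := ihm (α * a) (α * b)
      have b2 := ihn (β * a) (β * b)
      have c1 : IsCoprime (m : ℤ) α := ⟨β, n, by linarith⟩
      have c2 : IsCoprime (n : ℤ) β := ⟨α, m, by linarith⟩
      rw [G_unit m α a b c1] at b1
      rw [G_unit n β a b c2] at b2
      have hcard : (m * n).primeFactors.card = m.primeFactors.card + n.primeFactors.card := by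
        rw [hcop.primeFactors_mul, Finset.card_union_of_disjoint hcop.disjoint_primeFactors]
      have n1 := fK_nonneg hK1 m
      have n2 := fK_nonneg hK1 n
      rw [hcard, fK_mul hcop, Nat.cast_mul, Real.sqrt_mul (by positivity), G_mul m n hcop,
        Nat.cast_mul, Real.sqrt_mul (by positivity)]
      calc _ ≤ (fK (max C 1) m * 2 ^ m.primeFactors.card * Real.sqrt m * Real.sqrt (G m a b)) *
            (fK (max C 1) n * 2 ^ n.primeFactors.card * Real.sqrt n * Real.sqrt (G n a b)) :=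
            mul_le_mul b1 b2 (norm_nonneg _) (by positivity)
        _ = _ := by rw [pow_add]; ring
  intro q _ a b
  refine (main q a b).trans ?_
  apply mul_le_mul_of_nonneg_right _ (Real.sqrt_nonneg _)
  apply mul_le_mul_of_nonneg_right _ (Real.sqrt_nonneg _)
  apply mul_le_mul_of_nonneg_right _ (by positivity)
  unfold fK
  split_ifs
  · exact le_rfl
  · exact hK1

end Pool.Agent.TH43.LK
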