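import Pool.Agent.TH43.LK.Block
import Pool.Agent.H95R2.Leh.Tot

/-!
# Lehmer numbers with a large prime factor
-/

set_option autoImplicit false

namespace Pool.Agent.TH43.LK

open Finset Pool.Agent.H95R2.Leh

theorem omega_le {n x : ℕ} (hn : 1 ≤ n) (hnx : n ≤ x) :
    (n.primeFactors.card : ℝ) ≤ 1 + 2 * Real.log x := by
  have h1 := Tot.card_le n hn
  have h2 : Real.log n ≤ Real.log x :=
    Real.log_le_log (by exact_mod_cast hn) (by exact_mod_cast hnx)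
  have h3 := Real.log_two_gt_d9
  have h4 : (0 : ℝ) ≤ n.primeFactors.card := Nat.cast_nonneg _
  nlinarith

/-- lower bound for the modulus -/
theorem modulus_lower : ∃ A : ℝ, 1 ≤ A ∧ ∀ (x f : ℕ) (F : ℝ), 1 ≤ f → f ≤ x → 1 ≤ F →
    F / (16 * (1 + 2 * Real.log x)) < (f : ℝ) →
    F ^ 2 ≤ A * (1 + Real.log x) ^ 3 * ((f * f.totient : ℕ) : ℝ) := by
  obtain ⟨Ct, hCt, htot⟩ := tot_lower
  refine ⟨1024 * Ct, by linarith, ?_⟩
  intro x f F hf hfx hF hlt
  have hf0 : (0 : ℝ) < f := by exact_mod_cast hf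
  have hx1 : (1 : ℝ) ≤ x := by exact_mod_cast hf.trans hfx
  have hl0 : 0 ≤ Real.log x := Real.log_nonneg hx1
  have hlf : Real.log f ≤ Real.log x := Real.log_le_log hf0 (by exact_mod_cast hfx)
  have hlf0 : 0 ≤ Real.log f := Real.log_natCast_nonneg f
  have hphi : (0 : ℝ) < f.totient := by exact_mod_cast Nat.totient_pos.2 hf
  set l := Real.log x with hl
  have h1 := htot f hf
  have h2 : Real.log (1 + Real.log f) ≤ l := by
    have := Real.log_le_sub_one_of_pos (by linarith : (0 : ℝ) < 1 + Real.log f)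
    linarith
  have h3 : (f : ℝ) ≤ Ct * (1 + l) * f.totient := by
    rw [div_le_iff₀ hphi] at h1
    refine h1.trans ?_
    apply mul_le_mul_of_nonneg_right _ hphi.le
    apply mul_le_mul_of_nonneg_left _ (by linarith)
    linarith
  have h4 : F < f * (16 * (1 + 2 * l)) := by
    rwa [div_lt_iff₀ (by positivity)] at hlt
  have h5 : F ≤ 32 * (1 + l) * f := by nlinarith
  have h6 : F ^ 2 ≤ (32 * (1 + l) * f) ^ 2 := pow_le_pow_left₀ (by linarith) h5 2
  calc F ^ 2 ≤ (32 * (1 + l) * f) ^ 2 := h6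
    _ = 1024 * (1 + l) ^ 2 * f * f := by ring
    _ ≤ 1024 * (1 + l) ^ 2 * f * (Ct * (1 + l) * f.totient) := by
        apply mul_le_mul_of_nonneg_left h3 (by positivity)
    _ = _ := by push_cast; ring

/-- the logarithms are absorbed -/
theorem log_pow_le (k : ℕ) (δ : ℝ) (hδ : 0 < δ) : ∃ C : ℝ, 1 ≤ C ∧ ∀ x : ℝ, 1 ≤ x →
    (1 + Real.log x) ^ k ≤ C * x ^ δ := by
  have hk : (0 : ℝ) < (k : ℝ) + 1 := by positivity
  refine ⟨(1 + 1 / (δ / (k + 1))) ^ k, ?_, ?_⟩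
  · apply one_le_pow₀
    have : 0 < 1 / (δ / ((k : ℝ) + 1)) := by positivity
    linarith
  · intro x hx
    have h1 := one_add_log_le (δ / (k + 1)) (by positivity) x hx
    have h2 : 0 ≤ Real.log x := Real.log_nonneg hx
    have h3 := pow_le_pow_left₀ (by linarith) h1 k
    refine h3.trans ?_
    rw [mul_pow]
    apply mul_le_mul_of_nonneg_left _ (by positivity)
    rw [← Real.rpow_natCast, ← Real.rpow_mul (by linarith)]
    apply Real.rpow_le_rpow_of_exponent_le hx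
    rw [div_mul_eq_mul_div, div_le_iff₀ hk]
    nlinarith

theorem BB_empty {x Y : ℕ} (h : x < Y) : BB x Y = ∅ := by
  classical
  unfold BB
  rw [filter_eq_empty_iff]
  rintro n hn ⟨-, p, -, hpn, -, hYp, -⟩
  rw [mem_Icc] at hn
  have := Nat.le_of_dvd (by omega) hpn
  omega

/-- first bound for a block -/
theorem block_one (ε : ℝ) (hε : 0 < ε) : ∃ C : ℝ, 1 ≤ C ∧ ∀ x Y : ℕ, 1 ≤ Y → x ≤ Y ^ 4 →
    ((BB x Y).card : ℝ) ≤ C * (x : ℝ) ^ ε * ((x : ℝ) / Y) ^ (2 / 3 : ℝ) := by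
  obtain ⟨C0, hC0, hbox⟩ := box (ε / 4) (by positivity)
  obtain ⟨A, hA, hmod⟩ := modulus_lower
  obtain ⟨C1, hC1, hlog⟩ := log_pow_le 3 (ε / 2) (by positivity)
  refine ⟨C0 * (A * C1 + 1), by nlinarith [mul_nonneg (by linarith : (0:ℝ) ≤ A) (by linarith : (0:ℝ) ≤ C1)], ?_⟩
  intro x Y hY hxY
  rcases Nat.lt_or_ge x Y with hlt | hge
  · rw [BB_empty hlt]
    simp only [card_empty, Nat.cast_zero]
    have : 0 ≤ A * C1 := mul_nonneg (by linarith) (by linarith)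
    positivity
  have hY0 : (0 : ℝ) < Y := by exact_mod_cast hY
  have hx1n : 1 ≤ x := hY.trans hge
  have hx1 : (1 : ℝ) ≤ x := by exact_mod_cast hx1n
  have hx0 : (0 : ℝ) < x := by linarith
  have hl0 : 0 ≤ Real.log x := Real.log_nonneg hx1
  have hYx : (Y : ℝ) ≤ x := by exact_mod_cast hge
  have hq1 : 1 ≤ (x : ℝ) / Y := by rw [le_div_iff₀ hY0]; linarith
  have hq0 : 0 < (x : ℝ) / Y := by linarith
  set F : ℝ := ((x : ℝ) / Y) ^ (1 / 3 : ℝ) with hF
  have hF1 : 1 ≤ F := Real.one_le_rpow hq1 (by norm_num)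
  have hF0 : 0 < F := by linarith
  have hF3 : F ^ 3 = (x : ℝ) / Y := by
    rw [hF, ← Real.rpow_natCast, ← Real.rpow_mul hq0.le]
    norm_num
  have hF2 : F ^ 2 = ((x : ℝ) / Y) ^ (2 / 3 : ℝ) := by
    rw [hF, ← Real.rpow_natCast, ← Real.rpow_mul hq0.le]
    norm_num
  have hFY : F ≤ Y := by
    have h1 : F ^ 3 ≤ (Y : ℝ) ^ 3 := by
      rw [hF3, div_le_iff₀ hY0]
      have : (x : ℝ) ≤ (Y : ℝ) ^ 4 := by exact_mod_cast hxY
      calc (x : ℝ) ≤ (Y : ℝ) ^ 4 := this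
        _ = _ := by ring
    exact le_of_pow_le_pow_left₀ (by norm_num) hY0.le h1
  have hFx : F ≤ x := hFY.trans hYx
  set Λ : ℝ := A * (1 + Real.log x) ^ 3 with hΛ
  have hΛ1 : 1 ≤ Λ := by
    have : 1 ≤ (1 + Real.log x) ^ 3 := one_le_pow₀ (by linarith)
    nlinarith
  set Bd : ℝ := C0 * (x : ℝ) ^ (ε / 2) * ((Λ + 1) * F) with hBd
  have hBd0 : 0 ≤ Bd := by positivity
  have hmain := block_sum x Y hY (1 + 2 * Real.log x) (by linarith)
    (fun n hn hL => omega_le hL.1.le hn) F hF1 hFY Bd hBd0 (by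
    intro f hf1 hf2 hf3 c
    have hf0 : (0 : ℝ) < f := by exact_mod_cast hf1
    have hfx : f ≤ x := by
      have : (f : ℝ) ≤ x := hf3.trans hFx
      exact_mod_cast this
    have hphi : 0 < f.totient := Nat.totient_pos.2 hf1
    have hqpos : 0 < f * f.totient := Nat.mul_pos hf1 hphi
    have hqr : (0 : ℝ) < ((f * f.totient : ℕ) : ℝ) := by exact_mod_cast hqpos
    have h1 := hbox (f * f.totient) hqpos c 1 (Y + 1) (x / Y ^ 2) Y
    have h2 := hmod x f F hf1 hfx hF1 hf2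
    rw [← hΛ] at h2
    refine h1.trans ?_
    rw [hBd]
    -- the modulus is at most `F ^ 2`
    have h3 : ((f * f.totient : ℕ) : ℝ) ≤ F ^ 2 := by
      have h4 : (f.totient : ℝ) ≤ f := by exact_mod_cast Nat.totient_le f
      push_cast
      calc (f : ℝ) * f.totient ≤ F * F :=
            mul_le_mul hf3 (h4.trans hf3) (Nat.cast_nonneg _) hF0.le
        _ = F ^ 2 := by ring
    have h5 : ((f * f.totient : ℕ) : ℝ) ^ (ε / 4) ≤ (x : ℝ) ^ (ε / 2) := by
      calc ((f * f.totient : ℕ) : ℝ) ^ (ε / 4) ≤ ((x : ℝ) ^ 2) ^ (ε / 4) := by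
            apply Real.rpow_le_rpow hqr.le _ (by positivity)
            exact h3.trans (pow_le_pow_left₀ hF0.le hFx 2)
        _ = (x : ℝ) ^ (ε / 2) := by
            rw [← Real.rpow_natCast, ← Real.rpow_mul hx0.le]
            congr 1
            push_cast
            ring
    have h6 : Real.sqrt ((f * f.totient : ℕ) : ℝ) ≤ F := by
      rw [Real.sqrt_le_left hF0.le]
      exact h3
    have h7 : (((x / Y ^ 2 : ℕ) : ℝ) * Y) / ((f * f.totient : ℕ) : ℝ) ≤ Λ * F := by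
      have h8 : ((x / Y ^ 2 : ℕ) : ℝ) ≤ (x : ℝ) / ((Y ^ 2 : ℕ) : ℝ) := Nat.cast_div_le
      have h9 : ((x / Y ^ 2 : ℕ) : ℝ) * Y ≤ F ^ 3 := by
        rw [hF3]
        calc ((x / Y ^ 2 : ℕ) : ℝ) * Y ≤ ((x : ℝ) / ((Y ^ 2 : ℕ) : ℝ)) * Y :=
              mul_le_mul_of_nonneg_right h8 hY0.le
          _ = (x : ℝ) / Y := by
              push_cast
              field_simp
      rw [div_le_iff₀ hqr]
      calc ((x / Y ^ 2 : ℕ) : ℝ) * Y ≤ F ^ 3 := h9
        _ = F * F ^ 2 := by ring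
        _ ≤ F * (Λ * ((f * f.totient : ℕ) : ℝ)) := mul_le_mul_of_nonneg_left h2 hF0.le
        _ = _ := by ring
    have h10 : 0 ≤ (((x / Y ^ 2 : ℕ) : ℝ) * Y) / ((f * f.totient : ℕ) : ℝ) := by positivity
    apply mul_le_mul _ _ (by positivity) (by positivity)
    · exact mul_le_mul_of_nonneg_left h5 (by linarith)
    · calc _ ≤ Λ * F + F := add_le_add h7 h6
        _ = _ := by ring)
  refine hmain.trans ?_
  have h11 : Λ + 1 ≤ (A * C1 + 1) * (x : ℝ) ^ (ε / 2) := by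
    have h12 := hlog x hx1
    have h13 : 1 ≤ (x : ℝ) ^ (ε / 2) := Real.one_le_rpow hx1 (by positivity)
    calc Λ + 1 ≤ A * (C1 * (x : ℝ) ^ (ε / 2)) + 1 * (x : ℝ) ^ (ε / 2) := by
          rw [hΛ]
          have := mul_le_mul_of_nonneg_left h12 (by linarith : (0 : ℝ) ≤ A)
          linarith
      _ = _ := by ring
  have h14 : (x : ℝ) ^ (ε / 2) * (x : ℝ) ^ (ε / 2) = (x : ℝ) ^ ε := by
    rw [← Real.rpow_add hx0]
    congr 1
    ring
  calc F * Bd = C0 * (x : ℝ) ^ (ε / 2) * (Λ + 1) * F ^ 2 := by rw [hBd]; ring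
    _ ≤ C0 * (x : ℝ) ^ (ε / 2) * ((A * C1 + 1) * (x : ℝ) ^ (ε / 2)) * F ^ 2 := by
        apply mul_le_mul_of_nonneg_right _ (by positivity)
        exact mul_le_mul_of_nonneg_left h11 (by positivity)
    _ = C0 * (A * C1 + 1) * ((x : ℝ) ^ (ε / 2) * (x : ℝ) ^ (ε / 2)) * F ^ 2 := by ring
    _ = _ := by rw [h14, hF2]

/-- second bound for a block -/
theorem block_two (ε : ℝ) (hε : 0 < ε) : ∃ C : ℝ, 1 ≤ C ∧ ∀ x Y : ℕ, 1 ≤ Y →
    ((BB x Y).card : ℝ) ≤ C * (x : ℝ) ^ ε * ((x : ℝ) / (Y : ℝ) ^ (3 / 2 : ℝ)) := by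
  obtain ⟨A, hA, hmod⟩ := modulus_lower
  obtain ⟨C1, hC1, hlog⟩ := log_pow_le 3 ε hε
  refine ⟨A * C1 + 1, by nlinarith [mul_nonneg (by linarith : (0:ℝ) ≤ A) (by linarith : (0:ℝ) ≤ C1)], ?_⟩
  intro x Y hY
  rcases Nat.lt_or_ge x Y with hlt | hge
  · rw [BB_empty hlt]
    simp only [card_empty, Nat.cast_zero]
    have : 0 ≤ A * C1 := mul_nonneg (by linarith) (by linarith)
    positivity
  have hY0 : (0 : ℝ) < Y := by exact_mod_cast hY
  have hY1 : (1 : ℝ) ≤ Y := by exact_mod_cast hY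
  have hx1n : 1 ≤ x := hY.trans hge
  have hx1 : (1 : ℝ) ≤ x := by exact_mod_cast hx1n
  have hx0 : (0 : ℝ) < x := by linarith
  have hl0 : 0 ≤ Real.log x := Real.log_nonneg hx1
  have hYx : (Y : ℝ) ≤ x := by exact_mod_cast hge
  set F : ℝ := Real.sqrt Y with hF
  have hF1 : 1 ≤ F := by rw [hF, Real.one_le_sqrt]; exact hY1
  have hF0 : 0 < F := by linarith
  have hF2 : F ^ 2 = Y := Real.sq_sqrt hY0.le
  have hFY : F ≤ Y := by rw [← hF2]; nlinarith
  have hFx : F ≤ x := hFY.trans hYx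
  set Λ : ℝ := A * (1 + Real.log x) ^ 3 with hΛ
  have hΛ1 : 1 ≤ Λ := by
    have : 1 ≤ (1 + Real.log x) ^ 3 := one_le_pow₀ (by linarith)
    nlinarith
  set Bd : ℝ := (x : ℝ) / Y ^ 2 * (Λ + 1) with hBd
  have hBd0 : 0 ≤ Bd := by positivity
  have hmain := block_sum x Y hY (1 + 2 * Real.log x) (by linarith)
    (fun n hn hL => omega_le hL.1.le hn) F hF1 hFY Bd hBd0 (by
    intro f hf1 hf2 hf3 c
    have hf0 : (0 : ℝ) < f := by exact_mod_cast hf1
    have hfx : f ≤ x := by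
      have : (f : ℝ) ≤ x := hf3.trans hFx
      exact_mod_cast this
    have hphi : 0 < f.totient := Nat.totient_pos.2 hf1
    have hqpos : 0 < f * f.totient := Nat.mul_pos hf1 hphi
    have hqr : (0 : ℝ) < ((f * f.totient : ℕ) : ℝ) := by exact_mod_cast hqpos
    have h1 := NN_triv_right (f * f.totient) hqpos c 1 (Y + 1) (x / Y ^ 2) Y
    have h1' : (NN (f * f.totient) c 1 (Y + 1) (x / Y ^ 2) Y : ℝ) ≤
        ((x / Y ^ 2 : ℕ) : ℝ) * (((Y / (f * f.totient) : ℕ) : ℝ) + 1) := by exact_mod_cast h1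
    have h2 := hmod x f F hf1 hfx hF1 hf2
    rw [← hΛ, hF2] at h2
    refine h1'.trans ?_
    rw [hBd]
    have h8 : ((x / Y ^ 2 : ℕ) : ℝ) ≤ (x : ℝ) / (Y : ℝ) ^ 2 := by
      have : ((x / Y ^ 2 : ℕ) : ℝ) ≤ (x : ℝ) / ((Y ^ 2 : ℕ) : ℝ) := Nat.cast_div_le
      push_cast at this
      exact_mod_cast this
    have h9 : ((Y / (f * f.totient) : ℕ) : ℝ) ≤ Λ := by
      have h10 : ((Y / (f * f.totient) : ℕ) : ℝ) ≤ (Y : ℝ) / ((f * f.totient : ℕ) : ℝ) :=
        Nat.cast_div_le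
      refine h10.trans ?_
      rw [div_le_iff₀ hqr]
      exact h2
    apply mul_le_mul h8 (by linarith) (by positivity) (by positivity))
  refine hmain.trans ?_
  have h11 : Λ + 1 ≤ (A * C1 + 1) * (x : ℝ) ^ ε := by
    have h12 := hlog x hx1
    have h13 : 1 ≤ (x : ℝ) ^ ε := Real.one_le_rpow hx1 hε.le
    calc Λ + 1 ≤ A * (C1 * (x : ℝ) ^ ε) + 1 * (x : ℝ) ^ ε := by
          rw [hΛ]
          have := mul_le_mul_of_nonneg_left h12 (by linarith : (0 : ℝ) ≤ A)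
          linarith
      _ = _ := by ring
  have h15 : F * ((x : ℝ) / Y ^ 2) = (x : ℝ) / (Y : ℝ) ^ (3 / 2 : ℝ) := by
    have e1 : (Y : ℝ) ^ (3 / 2 : ℝ) = Y * F := by
      rw [hF, Real.sqrt_eq_rpow, show (3 / 2 : ℝ) = 1 + 1 / 2 by norm_num, Real.rpow_add hY0,
        Real.rpow_one]
    rw [e1]
    rw [mul_div_assoc', div_eq_div_iff (by positivity) (by positivity)]
    have e2 : (Y : ℝ) ^ 2 = Y * F ^ 2 := by rw [hF2]; ring
    rw [e2]
    ring
  calc F * Bd = (F * ((x : ℝ) / Y ^ 2)) * (Λ + 1) := by rw [hBd]; ring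
    _ ≤ (F * ((x : ℝ) / Y ^ 2)) * ((A * C1 + 1) * (x : ℝ) ^ ε) :=
        mul_le_mul_of_nonneg_left h11 (by positivity)
    _ = _ := by rw [h15]; ring

open Classical in
/-- Lehmer numbers up to `x` with a prime factor larger than `y` -/
noncomputable def AA (x y : ℕ) : Finset ℕ :=
  (Icc 1 x).filter (fun n => Leh n ∧ ∃ p : ℕ, p.Prime ∧ p ∣ n ∧ y < p)

theorem AA_sub (x y : ℕ) (hy : 1 ≤ y) :
    AA x y ⊆ (range (Nat.log 2 x + 1)).biUnion (fun i => BB x (2 ^ i * y)) := by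
  classical
  intro n hn
  unfold AA at hn
  rw [mem_filter, mem_Icc] at hn
  obtain ⟨⟨hn1, hnx⟩, hL, p, hp, hpn, hyp⟩ := hn
  have hne : n.primeFactors.Nonempty := Nat.nonempty_primeFactors.mpr hL.1
  set P := n.primeFactors.max' hne with hP
  have hPm : P ∈ n.primeFactors := Finset.max'_mem _ _
  have hPp : P.Prime := Nat.prime_of_mem_primeFactors hPm
  have hPn : P ∣ n := Nat.dvd_of_mem_primeFactors hPm
  have hmax : ∀ r : ℕ, r.Prime → r ∣ n → r ≤ P := fun r hr hrn =>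
    Finset.le_max' _ _ (Nat.mem_primeFactors.2 ⟨hr, hrn, by omega⟩)
  have hyP : y < P := lt_of_lt_of_le hyp (hmax p hp hpn)
  have hPx : P ≤ x := (Nat.le_of_dvd (by omega) hPn).trans hnx
  set a := (P - 1) / y with ha
  have ha0 : a ≠ 0 := by
    have : 0 < (P - 1) / y := Nat.div_pos (by omega) hy
    omega
  set i := Nat.log 2 a with hi
  have h1 : 2 ^ i ≤ a := Nat.pow_log_le_self 2 ha0
  have h2 : a < 2 ^ (i + 1) := Nat.lt_pow_succ_log_self (by norm_num) a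
  rw [mem_biUnion]
  refine ⟨i, ?_, ?_⟩
  · rw [mem_range]
    have : a ≤ x := (Nat.div_le_self _ _).trans (by omega)
    have := Nat.log_mono_right (b := 2) this
    omega
  · unfold BB
    rw [mem_filter, mem_Icc]
    refine ⟨⟨hn1, hnx⟩, hL, P, hPp, hPn, hmax, ?_, ?_⟩
    · have h3 : 2 ^ i * y ≤ a * y := Nat.mul_le_mul_right _ h1
      have h4 : a * y ≤ P - 1 := Nat.div_mul_le_self _ _
      have := hPp.one_lt
      omega
    · have h3 : P - 1 < 2 ^ (i + 1) * y := (Nat.div_lt_iff_lt_mul hy).1 h2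
      have h4 : 2 ^ (i + 1) * y = 2 * (2 ^ i * y) := by ring
      omega

theorem AA_card (x y : ℕ) (hy : 1 ≤ y) (V : ℝ) (hV0 : 0 ≤ V)
    (hV : ∀ i : ℕ, ((BB x (2 ^ i * y)).card : ℝ) ≤ V) :
    ((AA x y).card : ℝ) ≤ (2 * (1 + Real.log x)) * V := by
  classical
  have h1 : ((AA x y).card : ℝ) ≤
      ∑ i ∈ range (Nat.log 2 x + 1), ((BB x (2 ^ i * y)).card : ℝ) := by
    exact_mod_cast (card_le_card (AA_sub x y hy)).trans card_biUnion_le
  refine h1.trans ((sum_le_sum fun i _ => hV i).trans ?_)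
  rw [sum_const, nsmul_eq_mul, card_range]
  apply mul_le_mul_of_nonneg_right _ hV0
  rcases Nat.eq_zero_or_pos x with h0 | h0
  · subst h0
    simp
  · have h2 : (2 : ℝ) ^ (Nat.log 2 x) ≤ x := by exact_mod_cast Nat.pow_log_le_self 2 (by omega)
    have h3 := Real.log_le_log (by positivity) h2
    rw [Real.log_pow] at h3
    have h4 := Real.log_two_gt_d9
    have h5 : (0 : ℝ) ≤ (Nat.log 2 x : ℝ) := Nat.cast_nonneg _
    push_cast
    nlinarith

/-- the number of Lehmer numbers up to `x` with a prime factor `> y` -/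
theorem main_one (ε : ℝ) (hε : 0 < ε) : ∃ C : ℝ, 0 < C ∧ ∀ x y : ℕ, 1 ≤ y → x ≤ y ^ 4 →
    ((AA x y).card : ℝ) ≤ C * (x : ℝ) ^ ε * ((x : ℝ) / y) ^ (2 / 3 : ℝ) := by
  obtain ⟨C, hC, h⟩ := block_one (ε / 2) (by positivity)
  obtain ⟨C1, hC1, hlog⟩ := log_pow_le 1 (ε / 2) (by positivity)
  refine ⟨2 * C1 * C, by positivity, ?_⟩
  intro x y hy hxy
  have hy0 : (0 : ℝ) < y := by exact_mod_cast hy
  rcases Nat.eq_zero_or_pos x with h0 | h0
  · subst h0
    have : AA 0 y = ∅ := by unfold AA; simp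
    rw [this]
    simp only [card_empty, Nat.cast_zero]
    positivity
  have hx1 : (1 : ℝ) ≤ x := by exact_mod_cast h0
  have hx0 : (0 : ℝ) < x := by linarith
  have hV : ∀ i : ℕ, ((BB x (2 ^ i * y)).card : ℝ) ≤
      C * (x : ℝ) ^ (ε / 2) * ((x : ℝ) / y) ^ (2 / 3 : ℝ) := by
    intro i
    have h2 : y ≤ 2 ^ i * y := Nat.le_mul_of_pos_left y (by positivity)
    refine (h x (2 ^ i * y) (hy.trans h2) (hxy.trans (Nat.pow_le_pow_left h2 4))).trans ?_
    apply mul_le_mul_of_nonneg_left _ (by positivity)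
    apply Real.rpow_le_rpow (by positivity) _ (by norm_num)
    apply div_le_div_of_nonneg_left hx0.le hy0
    exact_mod_cast h2
  refine (AA_card x y hy _ (by positivity) hV).trans ?_
  have h3 := hlog x hx1
  rw [pow_one] at h3
  have h4 : (x : ℝ) ^ (ε / 2) * (x : ℝ) ^ (ε / 2) = (x : ℝ) ^ ε := by
    rw [← Real.rpow_add hx0]
    congr 1
    ring
  calc (2 * (1 + Real.log x)) * (C * (x : ℝ) ^ (ε / 2) * ((x : ℝ) / y) ^ (2 / 3 : ℝ)) ≤
      (2 * (C1 * (x : ℝ) ^ (ε / 2))) * (C * (x : ℝ) ^ (ε / 2) * ((x : ℝ) / y) ^ (2 / 3 : ℝ)) := by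
        apply mul_le_mul_of_nonneg_right _ (by positivity)
        linarith
    _ = 2 * C1 * C * ((x : ℝ) ^ (ε / 2) * (x : ℝ) ^ (ε / 2)) * ((x : ℝ) / y) ^ (2 / 3 : ℝ) := by
        ring
    _ = _ := by rw [h4]

theorem main_two (ε : ℝ) (hε : 0 < ε) : ∃ C : ℝ, 0 < C ∧ ∀ x y : ℕ, 1 ≤ y →
    ((AA x y).card : ℝ) ≤ C * (x : ℝ) ^ ε * ((x : ℝ) / (y : ℝ) ^ (3 / 2 : ℝ)) := by
  obtain ⟨C, hC, h⟩ := block_two (ε / 2) (by positivity)
  obtain ⟨C1, hC1, hlog⟩ := log_pow_le 1 (ε / 2) (by positivity)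
  refine ⟨2 * C1 * C, by positivity, ?_⟩
  intro x y hy
  have hy0 : (0 : ℝ) < y := by exact_mod_cast hy
  rcases Nat.eq_zero_or_pos x with h0 | h0
  · subst h0
    have : AA 0 y = ∅ := by unfold AA; simp
    rw [this]
    simp only [card_empty, Nat.cast_zero]
    positivity
  have hx1 : (1 : ℝ) ≤ x := by exact_mod_cast h0
  have hx0 : (0 : ℝ) < x := by linarith
  have hV : ∀ i : ℕ, ((BB x (2 ^ i * y)).card : ℝ) ≤
      C * (x : ℝ) ^ (ε / 2) * ((x : ℝ) / (y : ℝ) ^ (3 / 2 : ℝ)) := by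
    intro i
    have h2 : y ≤ 2 ^ i * y := Nat.le_mul_of_pos_left y (by positivity)
    refine (h x (2 ^ i * y) (hy.trans h2)).trans ?_
    apply mul_le_mul_of_nonneg_left _ (by positivity)
    apply div_le_div_of_nonneg_left hx0.le (by positivity)
    apply Real.rpow_le_rpow hy0.le _ (by norm_num)
    exact_mod_cast h2
  refine (AA_card x y hy _ (by positivity) hV).trans ?_
  have h3 := hlog x hx1
  rw [pow_one] at h3
  have h4 : (x : ℝ) ^ (ε / 2) * (x : ℝ) ^ (ε / 2) = (x : ℝ) ^ ε := by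
    rw [← Real.rpow_add hx0]
    congr 1
    ring
  calc (2 * (1 + Real.log x)) * (C * (x : ℝ) ^ (ε / 2) * ((x : ℝ) / (y : ℝ) ^ (3 / 2 : ℝ))) ≤
      (2 * (C1 * (x : ℝ) ^ (ε / 2))) *
        (C * (x : ℝ) ^ (ε / 2) * ((x : ℝ) / (y : ℝ) ^ (3 / 2 : ℝ))) := by
        apply mul_le_mul_of_nonneg_right _ (by positivity)
        linarith
    _ = 2 * C1 * C * ((x : ℝ) ^ (ε / 2) * (x : ℝ) ^ (ε / 2)) *
        ((x : ℝ) / (y : ℝ) ^ (3 / 2 : ℝ)) := by
        ring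
    _ = _ := by rw [h4]

end Pool.Agent.TH43.LK
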